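import Pool.Agent.H464R3.Fields

set_option autoImplicit false

namespace Pool.Agent.H464R3.Fields

open MeasureTheory Set Filter Topology Finset

variable {d : ℕ}

noncomputable def Lq (x : EuclideanSpace ℝ (Fin d)) (i j : Fin d) :
    EuclideanSpace ℝ (Fin d) →L[ℝ] ℝ :=
  x i • (EuclideanSpace.proj j : EuclideanSpace ℝ (Fin d) →L[ℝ] ℝ)
    + x j • (EuclideanSpace.proj i : EuclideanSpace ℝ (Fin d) →L[ℝ] ℝ)
    - (if i = j then (1 / (d : ℝ)) • (2 • innerSL ℝ x) else 0)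

lemma hasFDerivAt_q (x : EuclideanSpace ℝ (Fin d)) (i j : Fin d) :
    HasFDerivAt (fun y => q y i j) (Lq x i j) x := by
  unfold q Lq
  refine HasFDerivAt.sub ?_ ?_
  · exact ((EuclideanSpace.proj i : EuclideanSpace ℝ (Fin d) →L[ℝ] ℝ).hasFDerivAt).mul
      ((EuclideanSpace.proj j : EuclideanSpace ℝ (Fin d) →L[ℝ] ℝ).hasFDerivAt)
  · by_cases h : i = j
    · simp only [h, if_true]
      have h1 : HasFDerivAt (fun y : EuclideanSpace ℝ (Fin d) => ‖y‖ ^ 2) (2 • innerSL ℝ x) x :=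
        (hasStrictFDerivAt_norm_sq x).hasFDerivAt
      have h2 := h1.const_mul (1 / (d : ℝ))
      refine h2.congr_of_eventuallyEq ?_
      filter_upwards with y
      ring
    · simp only [h, if_false]
      exact hasFDerivAt_const _ _

lemma inner_single_one (x : EuclideanSpace ℝ (Fin d)) (k : Fin d) :
    (innerSL ℝ x) (EuclideanSpace.single k (1 : ℝ)) = x k := by
  rw [innerSL_apply_apply, EuclideanSpace.inner_single_right]
  simp

lemma proj_single (i k : Fin d) :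
    (EuclideanSpace.proj i : EuclideanSpace ℝ (Fin d) →L[ℝ] ℝ)
      (EuclideanSpace.single k (1 : ℝ)) = if i = k then 1 else 0 := by
  simp [EuclideanSpace.single_apply]

lemma Lq_single (x : EuclideanSpace ℝ (Fin d)) (i j k : Fin d) :
    Lq x i j (EuclideanSpace.single k 1) = Dq x i j k := by
  unfold Lq Dq
  by_cases h : i = j
  · subst h
    simp only [if_true, ContinuousLinearMap.sub_apply, ContinuousLinearMap.add_apply,
      ContinuousLinearMap.smul_apply, proj_single, inner_single_one, smul_eq_mul, nsmul_eq_mul]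
    push_cast
    split_ifs <;> ring
  · simp only [h, if_false, ContinuousLinearMap.sub_apply, ContinuousLinearMap.add_apply,
      ContinuousLinearMap.smul_apply, proj_single, smul_eq_mul, ContinuousLinearMap.zero_apply]
    split_ifs <;> ring

noncomputable def LN (ν : ℝ) (x : EuclideanSpace ℝ (Fin d)) :
    EuclideanSpace ℝ (Fin d) →L[ℝ] ℝ :=
  (ν * (‖x‖ ^ 2) ^ (ν - 1)) • (2 • innerSL ℝ x)

lemma hasFDerivAt_N (ν : ℝ) {x : EuclideanSpace ℝ (Fin d)} (hx : x ≠ 0) :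
    HasFDerivAt (fun y : EuclideanSpace ℝ (Fin d) => (‖y‖ ^ 2) ^ ν) (LN ν x) x := by
  have h1 : HasFDerivAt (fun y : EuclideanSpace ℝ (Fin d) => ‖y‖ ^ 2) (2 • innerSL ℝ x) x :=
    (hasStrictFDerivAt_norm_sq x).hasFDerivAt
  exact h1.rpow_const (Or.inl (by positivity))

lemma LN_single (ν : ℝ) (x : EuclideanSpace ℝ (Fin d)) (k : Fin d) :
    LN ν x (EuclideanSpace.single k 1) = 2 * ν * (‖x‖ ^ 2) ^ (ν - 1) * x k := by
  unfold LN
  simp only [ContinuousLinearMap.smul_apply, inner_single_one, smul_eq_mul, nsmul_eq_mul]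
  push_cast
  ring

/-- the homogeneous map `|x|^(2μ) q_ij` -/
noncomputable def H (μ : ℝ) (x : EuclideanSpace ℝ (Fin d)) (i j : Fin d) : ℝ :=
  (‖x‖ ^ 2) ^ μ * q x i j

lemma hasFDerivAt_H (μ : ℝ) {x : EuclideanSpace ℝ (Fin d)} (hx : x ≠ 0) (i j : Fin d) :
    HasFDerivAt (fun y => H μ y i j) ((‖x‖ ^ 2) ^ μ • Lq x i j + q x i j • LN μ x) x :=
  (hasFDerivAt_N μ hx).mul (hasFDerivAt_q x i j)

lemma H_deriv_single (μ : ℝ) (x : EuclideanSpace ℝ (Fin d)) (i j k : Fin d) :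
    ((‖x‖ ^ 2) ^ μ • Lq x i j + q x i j • LN μ x) (EuclideanSpace.single k 1)
      = Fld (2 * μ) μ x i j k := by
  simp only [ContinuousLinearMap.add_apply, ContinuousLinearMap.smul_apply, Lq_single, LN_single,
    smul_eq_mul]
  unfold Fld
  ring

noncomputable def LD (i j k : Fin d) : EuclideanSpace ℝ (Fin d) →L[ℝ] ℝ :=
  (if i = k then (EuclideanSpace.proj j : EuclideanSpace ℝ (Fin d) →L[ℝ] ℝ) else 0)
    + (if j = k then (EuclideanSpace.proj i : EuclideanSpace ℝ (Fin d) →L[ℝ] ℝ) else 0)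
    - (if i = j then (2 / (d : ℝ)) • (EuclideanSpace.proj k : EuclideanSpace ℝ (Fin d) →L[ℝ] ℝ)
        else 0)

lemma LD_apply (x : EuclideanSpace ℝ (Fin d)) (i j k : Fin d) : LD i j k x = Dq x i j k := by
  unfold LD Dq
  split_ifs <;> simp

lemma hasFDerivAt_Dq (x : EuclideanSpace ℝ (Fin d)) (i j k : Fin d) :
    HasFDerivAt (fun y => Dq y i j k) (LD i j k) x := by
  have := (LD i j k).hasFDerivAt (x := x)
  refine this.congr_of_eventuallyEq ?_
  filter_upwards with y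
  rw [LD_apply]

lemma sum_LD_single (hd : 0 < d) (i j : Fin d) :
    ∑ k, LD i j k (EuclideanSpace.single k 1) = 0 := by
  have hd' : (d : ℝ) ≠ 0 := by positivity
  have h : ∀ k, LD i j k (EuclideanSpace.single k 1)
      = (if i = k then (if j = k then (1:ℝ) else 0) else 0)
      + (if j = k then (if i = k then (1:ℝ) else 0) else 0)
      - (if i = j then 2 / (d : ℝ) else 0) := by
    intro k
    unfold LD
    split_ifs <;> simp_all
  simp only [h, Finset.sum_sub_distrib, Finset.sum_add_distrib, Finset.sum_ite_eq,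
    Finset.mem_univ, if_true, Finset.sum_const, Finset.card_univ, Fintype.card_fin, nsmul_eq_mul]
  by_cases hij : i = j
  · subst hij
    simp only [if_true]
    field_simp
    norm_num
  · have hji : ¬ j = i := fun h => hij h.symm
    simp [hij, hji]

noncomputable def LF (a ν : ℝ) (x : EuclideanSpace ℝ (Fin d)) (i j k : Fin d) :
    EuclideanSpace ℝ (Fin d) →L[ℝ] ℝ :=
  ((a * (‖x‖ ^ 2) ^ (ν - 1) * x k) • Lq x i j
    + q x i j • ((a * (‖x‖ ^ 2) ^ (ν - 1)) •
        (EuclideanSpace.proj k : EuclideanSpace ℝ (Fin d) →L[ℝ] ℝ) + x k • (a • LN (ν - 1) x)))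
  + ((‖x‖ ^ 2) ^ ν • LD i j k + Dq x i j k • LN ν x)

lemma hasFDerivAt_Fld (a ν : ℝ) {x : EuclideanSpace ℝ (Fin d)} (hx : x ≠ 0) (i j k : Fin d) :
    HasFDerivAt (fun y => Fld a ν y i j k) (LF a ν x i j k) x := by
  unfold Fld LF
  refine HasFDerivAt.add ?_ ?_
  · refine HasFDerivAt.mul ?_ (hasFDerivAt_q x i j)
    refine HasFDerivAt.mul ((hasFDerivAt_N (ν - 1) hx).const_mul a) ?_
    exact (EuclideanSpace.proj k : EuclideanSpace ℝ (Fin d) →L[ℝ] ℝ).hasFDerivAt
  · exact (hasFDerivAt_N ν hx).mul (hasFDerivAt_Dq x i j k)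

/-- divergence of the field -/
lemma sum_LF_single (hd : 0 < d) (a ν : ℝ) {x : EuclideanSpace ℝ (Fin d)} (hx : x ≠ 0)
    (i j : Fin d) :
    ∑ k, LF a ν x i j k (EuclideanSpace.single k 1)
      = (a * (2 * ν + d) + 4 * ν) * ((‖x‖ ^ 2) ^ (ν - 1) * q x i j) := by
  have hN : 0 < ‖x‖ ^ 2 := by positivity
  have h : ∀ k, LF a ν x i j k (EuclideanSpace.single k 1)
      = (a * (‖x‖ ^ 2) ^ (ν - 1)) * (x k * Dq x i j k)
        + (q x i j * (a * (‖x‖ ^ 2) ^ (ν - 1)))
        + (q x i j * a * (2 * (ν - 1)) * (‖x‖ ^ 2) ^ (ν - 1 - 1)) * (x k * x k)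
        + (‖x‖ ^ 2) ^ ν * LD i j k (EuclideanSpace.single k 1)
        + (2 * ν * (‖x‖ ^ 2) ^ (ν - 1)) * (x k * Dq x i j k) := by
    intro k
    unfold LF
    simp only [ContinuousLinearMap.add_apply, ContinuousLinearMap.smul_apply, Lq_single,
      LN_single, smul_eq_mul, proj_single, if_true]
    ring
  simp only [h, Finset.sum_add_distrib, ← Finset.mul_sum]
  rw [sum_x_Dq, sum_sq, sum_LD_single hd]
  simp only [Finset.sum_const, Finset.card_univ, Fintype.card_fin, nsmul_eq_mul]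
  have r : (‖x‖ ^ 2) ^ (ν - 1 - 1) * ‖x‖ ^ 2 = (‖x‖ ^ 2) ^ (ν - 1) := by
    nth_rewrite 2 [← Real.rpow_one (‖x‖ ^ 2)]
    rw [← Real.rpow_add hN]
    congr 1
    ring
  calc _ = (a * (2 + d) + 4 * ν) * ((‖x‖ ^ 2) ^ (ν - 1) * q x i j)
      + (q x i j * a * (2 * (ν - 1))) * ((‖x‖ ^ 2) ^ (ν - 1 - 1) * ‖x‖ ^ 2) := by ring
    _ = _ := by rw [r]; ring

lemma abs_Fld_le (hd : 0 < d) (a ν : ℝ) (hν : 0 < 2 * ν + 1) (x : EuclideanSpace ℝ (Fin d))
    (i j k : Fin d) :
    |Fld a ν x i j k| ≤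
      Real.sqrt (((1 - 1 / d) * (a ^ 2 + 4 * a + 2 * (d + 2))) * (‖x‖ ^ 2) ^ (2 * ν + 1)) := by
  rw [← sum_Fld_sq hd a ν hν x]
  apply Real.abs_le_sqrt
  calc Fld a ν x i j k ^ 2 ≤ ∑ k, Fld a ν x i j k ^ 2 :=
        Finset.single_le_sum (f := fun k => Fld a ν x i j k ^ 2) (fun _ _ => sq_nonneg _)
          (Finset.mem_univ k)
    _ ≤ ∑ j, ∑ k, Fld a ν x i j k ^ 2 :=
        Finset.single_le_sum (f := fun j => ∑ k, Fld a ν x i j k ^ 2)
          (fun _ _ => Finset.sum_nonneg fun _ _ => sq_nonneg _) (Finset.mem_univ j)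
    _ ≤ _ :=
        Finset.single_le_sum (f := fun i => ∑ j, ∑ k, Fld a ν x i j k ^ 2)
          (fun _ _ => Finset.sum_nonneg fun _ _ => Finset.sum_nonneg fun _ _ => sq_nonneg _)
          (Finset.mem_univ i)

lemma continuous_Fld (hd : 0 < d) (a ν : ℝ) (hν : 0 < 2 * ν + 1) (i j k : Fin d) :
    Continuous (fun x : EuclideanSpace ℝ (Fin d) => Fld a ν x i j k) := by
  rw [continuous_iff_continuousAt]
  intro x
  by_cases hx : x = 0
  · subst hx
    show Tendsto _ _ (𝓝 (Fld a ν (0 : EuclideanSpace ℝ (Fin d)) i j k))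
    rw [Fld_zero]
    have hb : Tendsto (fun x : EuclideanSpace ℝ (Fin d) =>
        Real.sqrt (((1 - 1 / d) * (a ^ 2 + 4 * a + 2 * (d + 2))) * (‖x‖ ^ 2) ^ (2 * ν + 1)))
        (𝓝 0) (𝓝 0) := by
      have hc : Continuous (fun x : EuclideanSpace ℝ (Fin d) =>
        Real.sqrt (((1 - 1 / d) * (a ^ 2 + 4 * a + 2 * (d + 2))) *
          (‖x‖ ^ 2) ^ (2 * ν + 1))) := by
        apply Real.continuous_sqrt.comp
        apply Continuous.mul continuous_const
        apply Continuous.rpow_const (by fun_prop)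
        intro x; right; exact hν.le
      have := hc.tendsto 0
      simpa [Real.zero_rpow hν.ne'] using this
    exact squeeze_zero_norm (fun x => by
      rw [Real.norm_eq_abs]; exact abs_Fld_le hd a ν hν x i j k) hb
  · exact (hasFDerivAt_Fld a ν hx i j k).continuousAt

lemma continuous_H {μ : ℝ} (hμ : 0 ≤ μ) (i j : Fin d) :
    Continuous (fun x : EuclideanSpace ℝ (Fin d) => H μ x i j) := by
  unfold H
  apply Continuous.mul
  · apply Continuous.rpow_const (by fun_prop)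
    intro x; right; exact hμ
  · rw [continuous_iff_continuousAt]
    exact fun x => (hasFDerivAt_q x i j).continuousAt

end Pool.Agent.H464R3.Fields
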