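import Mathlib

set_option autoImplicit false

namespace Pool.Agent.H464R3.Fields

open MeasureTheory Set Filter Topology Finset

variable {d : ℕ}

/-- the traceless quadratic forms `x_i x_j - δ_ij |x|^2/d` -/
noncomputable def q (x : EuclideanSpace ℝ (Fin d)) (i j : Fin d) : ℝ :=
  x i * x j - (if i = j then ‖x‖ ^ 2 / d else 0)

/-- the partial derivatives of `q` -/
noncomputable def Dq (x : EuclideanSpace ℝ (Fin d)) (i j k : Fin d) : ℝ :=
  (if i = k then x j else 0) + (if j = k then x i else 0) - (if i = j then (2 / d) * x k else 0)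

/-- the fields `a |x|^(2ν-2) x_k q_ij + |x|^(2ν) ∂_k q_ij` -/
noncomputable def Fld (a ν : ℝ) (x : EuclideanSpace ℝ (Fin d)) (i j k : Fin d) : ℝ :=
  a * (‖x‖ ^ 2) ^ (ν - 1) * x k * q x i j + (‖x‖ ^ 2) ^ ν * Dq x i j k

lemma sum_sq (x : EuclideanSpace ℝ (Fin d)) : ∑ i, x i * x i = ‖x‖ ^ 2 := by
  rw [EuclideanSpace.norm_sq_eq]
  refine Finset.sum_congr rfl fun i _ => ?_
  rw [Real.norm_eq_abs, sq_abs]; ring

lemma sum_q_sq (hd : 0 < d) (x : EuclideanSpace ℝ (Fin d)) :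
    ∑ i, ∑ j, q x i j ^ 2 = (1 - 1 / d) * (‖x‖ ^ 2) ^ 2 := by
  have hd' : (d : ℝ) ≠ 0 := by positivity
  have h1 : ∀ i j, q x i j ^ 2 = (x i * x i) * (x j * x j)
      + (if i = j then (-2 * (x i * x i) * (‖x‖ ^ 2 / d) + (‖x‖ ^ 2 / d) ^ 2) else 0) := by
    intro i j
    unfold q
    split_ifs with h
    · subst h; ring
    · ring
  simp only [h1, Finset.sum_add_distrib, Finset.sum_ite_eq, Finset.mem_univ, if_true]
  have h2 : ∑ i, ∑ j, (x i * x i) * (x j * x j) = (‖x‖ ^ 2) * (‖x‖ ^ 2) := by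
    rw [← sum_sq x, Finset.sum_mul_sum]
  have h3 : ∑ i, (-2 * (x i * x i) * (‖x‖ ^ 2 / d)) = -2 * (‖x‖ ^ 2 / d) * ‖x‖ ^ 2 := by
    conv_rhs => rw [← sum_sq x, Finset.mul_sum]
    rw [sum_sq x]
    refine Finset.sum_congr rfl fun i _ => ?_
    ring
  rw [h2, h3]
  simp only [Finset.sum_const, Finset.card_univ, Fintype.card_fin, nsmul_eq_mul]
  field_simp
  ring

lemma sum_x_Dq (x : EuclideanSpace ℝ (Fin d)) (i j : Fin d) :
    ∑ k, x k * Dq x i j k = 2 * q x i j := by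
  unfold Dq q
  have h : ∀ k, x k * ((if i = k then x j else 0) + (if j = k then x i else 0)
      - (if i = j then (2 / (d : ℝ)) * x k else 0)) =
      (if i = k then x k * x j else 0) + (if j = k then x k * x i else 0)
      - (if i = j then (2 / (d : ℝ)) * (x k * x k) else 0) := by
    intro k
    split_ifs <;> ring
  simp only [h, Finset.sum_sub_distrib, Finset.sum_add_distrib, Finset.sum_ite_eq,
    Finset.mem_univ, if_true]
  by_cases hij : i = j
  · subst hij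
    simp only [if_true]
    rw [← Finset.mul_sum, sum_sq]
    ring
  · simp only [hij, if_false, Finset.sum_const_zero]
    ring

lemma sum_Dq_sq (hd : 0 < d) (x : EuclideanSpace ℝ (Fin d)) :
    ∑ i, ∑ j, ∑ k, Dq x i j k ^ 2 = (1 - 1 / d) * (2 * (d + 2)) * ‖x‖ ^ 2 := by
  have hd' : (d : ℝ) ≠ 0 := by positivity
  have h1 : ∀ i j k, Dq x i j k ^ 2 = (if i = k then x j * x j else 0)
      + (if j = k then x i * x i else 0)
      + (if i = j then (4 / (d : ℝ)^2) * (x k * x k) else 0)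
      + (if i = k then (if j = k then 2 * (x i * x j) else 0) else 0)
      - (if i = k then (if i = j then (4 / (d : ℝ)) * (x j * x k) else 0) else 0)
      - (if j = k then (if i = j then (4 / (d : ℝ)) * (x i * x k) else 0) else 0) := by
    intro i j k
    unfold Dq
    split_ifs <;> ring
  simp only [h1, Finset.sum_sub_distrib, Finset.sum_add_distrib, Finset.sum_ite_eq,
    Finset.mem_univ, if_true]
  have e1 : ∑ _i : Fin d, ∑ j, x j * x j = d * ‖x‖ ^ 2 := by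
    rw [sum_sq]; simp
  have e2 : ∑ i, ∑ _j : Fin d, x i * x i = d * ‖x‖ ^ 2 := by
    simp only [Finset.sum_const, Finset.card_univ, Fintype.card_fin, nsmul_eq_mul]
    rw [← Finset.mul_sum, sum_sq]
  have e3 : ∑ i : Fin d, ∑ j : Fin d, ∑ k, (if i = j then (4 / (d : ℝ)^2) * (x k * x k) else 0)
      = (4 / d) * ‖x‖ ^ 2 := by
    have : ∀ i j : Fin d, ∑ k, (if i = j then (4 / (d : ℝ)^2) * (x k * x k) else 0)
        = if i = j then (4 / (d : ℝ)^2) * ‖x‖ ^ 2 else 0 := by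
      intro i j
      by_cases h : i = j
      · simp only [h, if_true]
        rw [← Finset.mul_sum, sum_sq]
      · simp [h]
    simp only [this, Finset.sum_ite_eq, Finset.mem_univ, if_true, Finset.sum_const,
      Finset.card_univ, Fintype.card_fin, nsmul_eq_mul]
    field_simp
  have e4 : ∑ i : Fin d, ∑ j : Fin d, (if j = i then 2 * (x i * x j) else 0) = 2 * ‖x‖ ^ 2 := by
    simp only [Finset.sum_ite_eq', Finset.mem_univ, if_true]
    rw [← Finset.mul_sum, sum_sq]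
  have e5 : ∑ i : Fin d, (4 / (d : ℝ)) * (x i * x i) = (4 / d) * ‖x‖ ^ 2 := by
    rw [← Finset.mul_sum, sum_sq]
  rw [e1, e2, e3, e4, e5]
  field_simp
  ring


lemma q_zero (i j : Fin d) : q (0 : EuclideanSpace ℝ (Fin d)) i j = 0 := by
  simp [q]

lemma Dq_zero (i j k : Fin d) : Dq (0 : EuclideanSpace ℝ (Fin d)) i j k = 0 := by
  simp [Dq]

lemma Fld_zero (a ν : ℝ) (i j k : Fin d) :
    Fld a ν (0 : EuclideanSpace ℝ (Fin d)) i j k = 0 := by
  simp [Fld, q_zero, Dq_zero]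

lemma q_neg (x : EuclideanSpace ℝ (Fin d)) (i j : Fin d) : q (-x) i j = q x i j := by
  simp [q]

lemma Dq_neg (x : EuclideanSpace ℝ (Fin d)) (i j k : Fin d) : Dq (-x) i j k = - Dq x i j k := by
  unfold Dq
  simp only [PiLp.neg_apply]
  split_ifs <;> ring

lemma Fld_neg (a ν : ℝ) (x : EuclideanSpace ℝ (Fin d)) (i j k : Fin d) :
    Fld a ν (-x) i j k = - Fld a ν x i j k := by
  unfold Fld
  rw [q_neg, Dq_neg]
  simp only [norm_neg, PiLp.neg_apply]
  ring

/-- the norm of the field is radial -/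
lemma sum_Fld_sq (hd : 0 < d) (a ν : ℝ) (hν : 0 < 2 * ν + 1) (x : EuclideanSpace ℝ (Fin d)) :
    ∑ i, ∑ j, ∑ k, Fld a ν x i j k ^ 2 =
      ((1 - 1 / d) * (a ^ 2 + 4 * a + 2 * (d + 2))) * (‖x‖ ^ 2) ^ (2 * ν + 1) := by
  by_cases hx : x = 0
  · subst hx
    simp only [Fld_zero]
    simp [Real.zero_rpow hν.ne']
  have hN : 0 < ‖x‖ ^ 2 := by positivity
  set N := ‖x‖ ^ 2 with hNdef
  have h1 : ∀ i j k, Fld a ν x i j k ^ 2 =
      (a ^ 2 * (N ^ (ν - 1)) ^ 2) * (q x i j ^ 2 * (x k * x k))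
      + (2 * a * N ^ (ν - 1) * N ^ ν) * (q x i j * (x k * Dq x i j k))
      + (N ^ ν) ^ 2 * (Dq x i j k ^ 2) := by
    intro i j k
    unfold Fld
    ring
  simp only [h1, Finset.sum_add_distrib, ← Finset.mul_sum]
  rw [sum_sq x]
  have e2 : ∑ i, ∑ j, q x i j * ∑ k, x k * Dq x i j k = 2 * ((1 - 1 / d) * N ^ 2) := by
    simp only [sum_x_Dq]
    rw [← sum_q_sq hd x, Finset.mul_sum]
    refine Finset.sum_congr rfl fun i _ => ?_
    rw [Finset.mul_sum]
    refine Finset.sum_congr rfl fun j _ => ?_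
    ring
  have e1 : ∑ i, ∑ j, q x i j ^ 2 * ‖x‖ ^ 2 = (1 - 1 / d) * N ^ 2 * N := by
    simp only [← Finset.sum_mul]
    rw [sum_q_sq hd x]
  rw [e1, e2, sum_Dq_sq hd x]
  have r1 : (N ^ (ν - 1)) ^ 2 * N ^ 3 = N ^ (2 * ν + 1) := by
    rw [← Real.rpow_natCast N 3, ← Real.rpow_natCast (N ^ (ν - 1)) 2, ← Real.rpow_mul hN.le,
      ← Real.rpow_add hN]
    congr 1
    push_cast; ring
  have r2 : N ^ (ν - 1) * N ^ ν * N ^ 2 = N ^ (2 * ν + 1) := by
    rw [← Real.rpow_natCast N 2, ← Real.rpow_add hN, ← Real.rpow_add hN]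
    congr 1
    push_cast; ring
  have r3 : (N ^ ν) ^ 2 * N = N ^ (2 * ν + 1) := by
    rw [← Real.rpow_natCast (N ^ ν) 2, ← Real.rpow_mul hN.le]
    nth_rewrite 2 [← Real.rpow_one N]
    rw [← Real.rpow_add hN]
    congr 1
    push_cast; ring
  calc _ = (1 - 1 / d) * a ^ 2 * ((N ^ (ν - 1)) ^ 2 * N ^ 3)
        + (1 - 1 / d) * (4 * a) * (N ^ (ν - 1) * N ^ ν * N ^ 2)
        + (1 - 1 / d) * (2 * (d + 2)) * ((N ^ ν) ^ 2 * N) := by ring
    _ = _ := by rw [r1, r2, r3]; ring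

end Pool.Agent.H464R3.Fields
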