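import Mathlib

/-!
Elementary tools for the functional equation `f (x + f x) = f x + f (f x)`.
-/

namespace H464.Forti

/-- From the binomial quadratic inequalities one gets log-convexity. -/
lemma lc_of_forall {A0 A1 A2 : ℝ} (h0 : 0 < A0)
    (h : ∀ n : ℕ, ∀ a b : ℝ,
      0 ≤ a ^ 2 * A0 + 2 * a * b * n * A1 + b ^ 2 * (n * (n - 1) * A2 + n * A1)) :
    A1 ^ 2 ≤ A0 * A2 := by
  by_contra hlt
  push Not at hlt
  have hpos : 0 < A1 ^ 2 - A0 * A2 := by linarith
  obtain ⟨n, hn⟩ := exists_nat_gt (A0 * |A1 - A2| / (A1 ^ 2 - A0 * A2))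
  have hn0 : (0:ℝ) < n := lt_of_le_of_lt (by positivity) hn
  have h1 := h n A1 (-(A0 / n))
  rw [div_lt_iff₀ hpos] at hn
  have h2 : A1 ^ 2 * A0 + 2 * A1 * (-(A0 / n)) * n * A1
      + (-(A0 / n)) ^ 2 * (n * (n - 1) * A2 + n * A1)
      = A0 / n * (n * (A0 * A2 - A1 ^ 2) + A0 * (A1 - A2)) := by
    field_simp
    ring
  rw [h2] at h1
  have h3 : 0 ≤ n * (A0 * A2 - A1 ^ 2) + A0 * (A1 - A2) := by
    have : 0 < A0 / n := by positivity
    exact nonneg_of_mul_nonneg_right h1 this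
  have h4 : A0 * (A1 - A2) ≤ A0 * |A1 - A2| :=
    mul_le_mul_of_nonneg_left (le_abs_self _) h0.le
  linarith

/-- If one can always move outwards without increasing `T`, then `T` has a minimum on the
punctured closed ball. -/
lemma exists_min_of_outward {R c : ℝ} (hc : 0 < c) (hcR : c ≤ R) (T : ℝ → ℝ)
    (hT : ∀ x, x ≠ 0 → |x| ≤ R → ContinuousAt T x)
    (hout : ∀ z, z ≠ 0 → |z| < c → ∃ w, |z| < |w| ∧ |w| ≤ R ∧ T w ≤ T z) :
    ∃ z0, z0 ≠ 0 ∧ |z0| ≤ R ∧ ∀ x, x ≠ 0 → |x| ≤ R → T z0 ≤ T x := by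
  have hKc : ∀ r : ℝ, IsCompact {x : ℝ | r ≤ |x| ∧ |x| ≤ R} := by
    intro r
    have h1 : {x : ℝ | r ≤ |x| ∧ |x| ≤ R} = Set.Icc (-R) R ∩ {x : ℝ | r ≤ |x|} := by
      ext x
      simp only [Set.mem_ofPred_eq, Set.mem_inter_iff, Set.mem_Icc]
      rw [abs_le]
      tauto
    rw [h1]
    exact isCompact_Icc.inter_right (isClosed_le continuous_const continuous_abs)
  have hne : ∀ r : ℝ, 0 < r → ∀ x : ℝ, r ≤ |x| → x ≠ 0 := by
    intro r hr x hx h0
    rw [h0, abs_zero] at hx
    linarith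
  have hcont : ∀ r : ℝ, 0 < r → ContinuousOn T {x : ℝ | r ≤ |x| ∧ |x| ≤ R} := by
    intro r hr x hx
    exact (hT x (hne r hr x hx.1) hx.2).continuousWithinAt
  have hKne : ({x : ℝ | c ≤ |x| ∧ |x| ≤ R}).Nonempty :=
    ⟨c, by simp only [Set.mem_ofPred_eq]; rw [abs_of_pos hc]; exact ⟨le_rfl, hcR⟩⟩
  obtain ⟨z0, hz0, hmin⟩ := (hKc c).exists_isMinOn hKne (hcont c hc)
  refine ⟨z0, hne c hc z0 hz0.1, hz0.2, ?_⟩
  intro x hx hxR
  by_cases hcx : c ≤ |x|
  · exact hmin (show x ∈ {x : ℝ | c ≤ |x| ∧ |x| ≤ R} from ⟨hcx, hxR⟩)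
  · have hx0 : 0 < |x| := abs_pos.mpr hx
    have hA : IsCompact ({z : ℝ | |x| ≤ |z| ∧ |z| ≤ R} ∩ T ⁻¹' Set.Iic (T x)) := by
      have := (hcont |x| hx0).preimage_isClosed_of_isClosed (hKc |x|).isClosed
        (isClosed_Iic (a := T x))
      exact (hKc |x|).of_isClosed_subset this Set.inter_subset_left
    have hAne : ({z : ℝ | |x| ≤ |z| ∧ |z| ≤ R} ∩ T ⁻¹' Set.Iic (T x)).Nonempty :=
      ⟨x, ⟨le_rfl, hxR⟩, by
        rw [Set.mem_preimage, Set.mem_Iic]⟩
    obtain ⟨zs, hzs, hmax⟩ := hA.exists_isMaxOn hAne continuous_abs.continuousOn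
    have hzc : c ≤ |zs| := by
      by_contra hlt
      push Not at hlt
      obtain ⟨w, hw1, hw2, hw3⟩ := hout zs (hne |x| hx0 zs hzs.1.1) hlt
      have hwA : w ∈ ({z : ℝ | |x| ≤ |z| ∧ |z| ≤ R} ∩ T ⁻¹' Set.Iic (T x)) :=
        ⟨⟨hzs.1.1.trans hw1.le, hw2⟩, le_trans hw3 hzs.2⟩
      have : |w| ≤ |zs| := hmax hwA
      linarith
    have h1 : T z0 ≤ T zs := hmin (show zs ∈ {x : ℝ | c ≤ |x| ∧ |x| ≤ R} from ⟨hzc, hzs.1.2⟩)
    exact h1.trans hzs.2

/-- IVT from the origin. -/
lemma ivt0 {h : ℝ → ℝ} (hh : Continuous h) (h0 : h 0 = 0) (x z : ℝ)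
    (hz : z ∈ Set.uIcc 0 (h x)) : ∃ w ∈ Set.uIcc 0 x, h w = z := by
  have := intermediate_value_uIcc (a := (0:ℝ)) (b := x) (f := h) hh.continuousOn
  rw [h0] at this
  exact this hz

lemma mem_uIcc0_of {z y : ℝ} (h1 : 0 ≤ z * y) (h2 : |z| ≤ |y|) : z ∈ Set.uIcc 0 y := by
  rw [Set.mem_uIcc]
  rcases le_total 0 y with hy | hy
  · left
    rw [abs_of_nonneg hy] at h2
    have hz : 0 ≤ z := by
      by_contra hz
      push Not at hz
      rcases hy.eq_or_lt with h | h
      · rw [← h] at h2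
        have := abs_nonneg z
        have h3 : |z| = 0 := le_antisymm h2 this
        rw [abs_eq_zero] at h3
        linarith
      · have := mul_neg_of_neg_of_pos hz h
        linarith
    rw [abs_of_nonneg hz] at h2
    exact ⟨hz, h2⟩
  · right
    rw [abs_of_nonpos hy] at h2
    have hz : z ≤ 0 := by
      by_contra hz
      push Not at hz
      rcases hy.eq_or_lt with h | h
      · rw [h] at h2
        have := abs_nonneg z
        have h3 : |z| = 0 := le_antisymm (by linarith) this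
        rw [abs_eq_zero] at h3
        linarith
      · have := mul_neg_of_pos_of_neg hz h
        linarith
    rw [abs_of_nonpos hz] at h2
    exact ⟨by linarith, hz⟩

lemma of_mem_uIcc0 {z y : ℝ} (h : z ∈ Set.uIcc 0 y) : 0 ≤ z * y ∧ |z| ≤ |y| := by
  rw [Set.mem_uIcc] at h
  rcases h with ⟨h1, h2⟩ | ⟨h1, h2⟩
  · have hy : 0 ≤ y := h1.trans h2
    rw [abs_of_nonneg h1, abs_of_nonneg hy]
    exact ⟨mul_nonneg h1 hy, h2⟩
  · have hy : y ≤ 0 := h1.trans h2
    rw [abs_of_nonpos h2, abs_of_nonpos hy]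
    exact ⟨mul_nonneg_of_nonpos_of_nonpos h2 hy, by linarith⟩

lemma abs_split_I {x y : ℝ} (h1 : x * y < 0) (h2 : 0 < x * (x + y)) :
    |x| = |y| + |x + y| := by
  rcases lt_trichotomy x 0 with hx | hx | hx
  · have hy : 0 < y := by nlinarith
    have hxy : x + y < 0 := by
      by_contra h
      push Not at h
      nlinarith
    rw [abs_of_neg hx, abs_of_pos hy, abs_of_neg hxy]
    ring
  · rw [hx] at h1
    simp at h1
  · have hy : y < 0 := by
      by_contra h
      push Not at h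
      nlinarith
    have hxy : 0 < x + y := by
      by_contra h
      push Not at h
      nlinarith
    rw [abs_of_pos hx, abs_of_neg hy, abs_of_pos hxy]
    ring

lemma abs_split_II {x y : ℝ} (h2 : x * (x + y) < 0) :
    |y| = |x| + |x + y| := by
  rcases lt_trichotomy x 0 with hx | hx | hx
  · have hxy : 0 < x + y := by
      by_contra h
      push Not at h
      nlinarith
    have hy : 0 < y := by linarith
    rw [abs_of_neg hx, abs_of_pos hy, abs_of_pos hxy]
    ring
  · rw [hx] at h2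
    simp at h2
  · have hxy : x + y < 0 := by
      by_contra h
      push Not at h
      nlinarith
    have hy : y < 0 := by linarith
    rw [abs_of_pos hx, abs_of_neg hy, abs_of_neg hxy]
    ring

/-! ### Regime I -/

section I

variable {f g : ℝ → ℝ} {ε : ℝ}

lemma lcI_aux (hcomm : ∀ x, f (g x) = g (f x))
    (habs : ∀ x, |x| < ε → |x| = |f x| + |g x|) :
    ∀ n : ℕ, ∀ x, |x| < ε → ∀ a b : ℝ,
      0 ≤ a ^ 2 * |x| + 2 * a * b * n * |f x|
        + b ^ 2 * (n * (n - 1) * |f (f x)| + n * |f x|) := by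
  intro n
  induction n with
  | zero =>
    intro x hx a b
    have : 0 ≤ a ^ 2 * |x| := by positivity
    simpa using this
  | succ n ih =>
    intro x hx a b
    have e0 := habs x hx
    have hfx : |f x| < ε := by
      have := abs_nonneg (g x)
      linarith
    have hgx : |g x| < ε := by
      have := abs_nonneg (f x)
      linarith
    have e1 := habs (f x) hfx
    have hffx : |f (f x)| < ε := by
      have := abs_nonneg (g (f x))
      linarith
    have e2 := habs (f (f x)) hffx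
    have h1 := ih (g x) hgx a b
    have h2 := ih (f x) hfx (a + b) b
    rw [hcomm x, hcomm (f x)] at h1
    generalize |g x| = B0 at *
    generalize |g (f x)| = B1 at *
    generalize |g (f (f x))| = B2 at *
    generalize |f (f (f x))| = A3 at *
    rw [e0, e1, e2]
    rw [e1, e2] at h2
    push_cast
    have h3 := add_nonneg h1 h2
    refine le_of_le_of_eq h3 ?_
    ring

lemma lcI (hcomm : ∀ x, f (g x) = g (f x))
    (habs : ∀ x, |x| < ε → |x| = |f x| + |g x|) {x : ℝ} (hx0 : x ≠ 0) (hx : |x| < ε) :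
    |f x| ^ 2 ≤ |x| * |f (f x)| :=
  lc_of_forall (abs_pos.mpr hx0) (fun n a b => lcI_aux hcomm habs n x hx a b)

theorem regimeI_abs (hf : Continuous f) (hg : Continuous g) (f0 : f 0 = 0) (g0 : g 0 = 0)
    (hcomm : ∀ x, f (g x) = g (f x)) (hε : 0 < ε)
    (habs : ∀ x, |x| < ε → |x| = |f x| + |g x|)
    (hsf : ∀ x, x ≠ 0 → |x| < ε → x * f x < 0)
    (hsg : ∀ x, x ≠ 0 → |x| < ε → 0 < x * g x) :
    ∃ m, 0 < m ∧ m < 1 ∧ ∀ x, |x| ≤ ε / 2 → |f x| = m * |x| := by
  set R := ε / 2 with hR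
  have hRpos : 0 < R := by positivity
  have hRε : ∀ x, |x| ≤ R → |x| < ε := fun x hx => by linarith
  have hfne : ∀ x, x ≠ 0 → |x| ≤ R → f x ≠ 0 := by
    intro x hx hxR h
    have := hsf x hx (hRε x hxR)
    rw [h] at this
    simp at this
  have hgne : ∀ x, x ≠ 0 → |x| ≤ R → g x ≠ 0 := by
    intro x hx hxR h
    have := hsg x hx (hRε x hxR)
    rw [h] at this
    simp at this
  have hflt : ∀ x, x ≠ 0 → |x| ≤ R → |f x| < |x| := by
    intro x hx hxR
    have h1 := habs x (hRε x hxR)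
    have h2 := abs_pos.mpr (hgne x hx hxR)
    linarith
  have hglt : ∀ x, x ≠ 0 → |x| ≤ R → |g x| < |x| := by
    intro x hx hxR
    have h1 := habs x (hRε x hxR)
    have h2 := abs_pos.mpr (hfne x hx hxR)
    linarith
  have hLC : ∀ x, x ≠ 0 → |x| ≤ R → |f x| ^ 2 ≤ |x| * |f (f x)| :=
    fun x hx hxR => lcI hcomm habs hx (hRε x hxR)
  set T : ℝ → ℝ := fun x => |f x| / |x| with hT
  have hTeq : ∀ x, x ≠ 0 → ∀ m, T x = m ↔ |f x| = m * |x| := by
    intro x hx m
    have hx' : |x| ≠ 0 := abs_ne_zero.mpr hx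
    rw [hT]
    exact div_eq_iff hx'
  have hTc : ∀ x, x ≠ 0 → |x| ≤ R → ContinuousAt T x := by
    intro x hx _
    have hx' : |x| ≠ 0 := abs_ne_zero.mpr hx
    exact (hf.abs.continuousAt).div continuous_abs.continuousAt hx'
  have hTf : ∀ x, x ≠ 0 → |x| ≤ R → T x ≤ T (f x) := by
    intro x hx hxR
    have h1 := hLC x hx hxR
    have h2 := abs_pos.mpr hx
    have h3 := abs_pos.mpr (hfne x hx hxR)
    simp only [hT]
    rw [div_le_div_iff₀ h2 h3]
    nlinarith
  have hTg : ∀ x, x ≠ 0 → |x| ≤ R → T (g x) ≤ T x := by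
    intro x hx hxR
    have h1 := hLC x hx hxR
    have h2 := abs_pos.mpr hx
    have h3 := abs_pos.mpr (hgne x hx hxR)
    have h4 := habs x (hRε x hxR)
    have h5 := habs (f x) (hRε _ ((hflt x hx hxR).le.trans hxR))
    simp only [hT]
    rw [div_le_div_iff₀ h3 h2, hcomm x]
    have e1 : |g (f x)| = |f x| - |f (f x)| := by linarith
    have e2 : |g x| = |x| - |f x| := by linarith
    rw [e1, e2]
    nlinarith
  -- choose sides
  have hside : ∀ z : ℝ, z ≠ 0 → ∃ x, (x = R ∨ x = -R) ∧ 0 < x * z := by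
    intro z hz
    rcases lt_or_gt_of_ne hz with h | h
    · exact ⟨-R, Or.inr rfl, mul_pos_of_neg_of_neg (by linarith) h⟩
    · exact ⟨R, Or.inl rfl, mul_pos hRpos h⟩
  have habsR : ∀ x, (x = R ∨ x = -R) → |x| = R := by
    rintro x (h | h)
    · rw [h, abs_of_pos hRpos]
    · rw [h, abs_neg, abs_of_pos hRpos]
  have hRne : ∀ x, (x = R ∨ x = -R) → x ≠ 0 := by
    intro x hx h0
    have := habsR x hx
    rw [h0, abs_zero] at this
    linarith
  obtain ⟨z0, hz0, hz0R, hmin⟩ : ∃ z0, z0 ≠ 0 ∧ |z0| ≤ R ∧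
      ∀ x, x ≠ 0 → |x| ≤ R → T z0 ≤ T x := by
    have hfR : 0 < |f R| := abs_pos.mpr (hfne R hRpos.ne' (habsR R (Or.inl rfl)).le)
    have hfR' : 0 < |f (-R)| :=
      abs_pos.mpr (hfne (-R) (hRne _ (Or.inr rfl)) (habsR _ (Or.inr rfl)).le)
    have hc : 0 < min |f R| |f (-R)| := lt_min hfR hfR'
    have hcR : min |f R| |f (-R)| ≤ R := by
      have := hflt R hRpos.ne' (habsR R (Or.inl rfl)).le
      rw [abs_of_pos hRpos] at this
      exact (min_le_left _ _).trans this.le
    refine exists_min_of_outward hc hcR T hTc ?_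
    intro z hz hzc
    obtain ⟨x, hx, hxz⟩ := hside (-z) (neg_ne_zero.mpr hz)
    have hxc : |z| ≤ |f x| := by
      rcases hx with h | h
      · rw [h]; exact hzc.le.trans (min_le_left _ _)
      · rw [h]; exact hzc.le.trans (min_le_right _ _)
    have hsx := hsf x (hRne x hx) (hRε x (habsR x hx).le)
    have hzfx : 0 ≤ z * f x := by
      have h1 : 0 < (x * f x) * (x * z) := mul_pos_of_neg_of_neg hsx (by linarith)
      have h2 : (x * f x) * (x * z) = x ^ 2 * (z * f x) := by ring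
      rw [h2] at h1
      exact (pos_of_mul_pos_right h1 (by positivity)).le
    obtain ⟨w, hw, hwz⟩ := ivt0 hf f0 x z (mem_uIcc0_of hzfx hxc)
    have hw0 : w ≠ 0 := by
      intro h
      rw [h, f0] at hwz
      exact hz hwz.symm
    have hwR : |w| ≤ R := by
      have := (of_mem_uIcc0 hw).2
      rwa [habsR x hx] at this
    refine ⟨w, ?_, hwR, ?_⟩
    · rw [← hwz]; exact hflt w hw0 hwR
    · have := hTf w hw0 hwR
      rwa [hwz] at this
  obtain ⟨s0, hs0, hs0R, hmax⟩ : ∃ s0, s0 ≠ 0 ∧ |s0| ≤ R ∧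
      ∀ x, x ≠ 0 → |x| ≤ R → T x ≤ T s0 := by
    have hfR : 0 < |g R| := abs_pos.mpr (hgne R hRpos.ne' (habsR R (Or.inl rfl)).le)
    have hfR' : 0 < |g (-R)| :=
      abs_pos.mpr (hgne (-R) (hRne _ (Or.inr rfl)) (habsR _ (Or.inr rfl)).le)
    have hc : 0 < min |g R| |g (-R)| := lt_min hfR hfR'
    have hcR : min |g R| |g (-R)| ≤ R := by
      have := hglt R hRpos.ne' (habsR R (Or.inl rfl)).le
      rw [abs_of_pos hRpos] at this
      exact (min_le_left _ _).trans this.le
    obtain ⟨s0, h1, h2, h3⟩ := exists_min_of_outward hc hcR (fun x => - T x)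
      (fun x hx hxR => (hTc x hx hxR).neg) (by
        intro z hz hzc
        obtain ⟨x, hx, hxz⟩ := hside z hz
        have hxc : |z| ≤ |g x| := by
          rcases hx with h | h
          · rw [h]; exact hzc.le.trans (min_le_left _ _)
          · rw [h]; exact hzc.le.trans (min_le_right _ _)
        have hsx := hsg x (hRne x hx) (hRε x (habsR x hx).le)
        have hzfx : 0 ≤ z * g x := by
          have h1 : 0 < (x * g x) * (x * z) := mul_pos hsx hxz
          have h2 : (x * g x) * (x * z) = x ^ 2 * (z * g x) := by ring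
          rw [h2] at h1
          exact (pos_of_mul_pos_right h1 (by positivity)).le
        obtain ⟨w, hw, hwz⟩ := ivt0 hg g0 x z (mem_uIcc0_of hzfx hxc)
        have hw0 : w ≠ 0 := by
          intro h
          rw [h, g0] at hwz
          exact hz hwz.symm
        have hwR : |w| ≤ R := by
          have := (of_mem_uIcc0 hw).2
          rwa [habsR x hx] at this
        refine ⟨w, ?_, hwR, ?_⟩
        · rw [← hwz]; exact hglt w hw0 hwR
        · have := hTg w hw0 hwR
          rw [hwz] at this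
          exact neg_le_neg this)
    exact ⟨s0, h1, h2, fun x hx hxR => neg_le_neg_iff.mp (h3 x hx hxR)⟩
  set m := T z0 with hm
  set M := T s0 with hM
  have hmpos : 0 < m := by
    rw [hm, hT]
    exact div_pos (abs_pos.mpr (hfne z0 hz0 hz0R)) (abs_pos.mpr hz0)
  have hMlt : M < 1 := by
    rw [hM, hT]
    exact (div_lt_one (abs_pos.mpr hs0)).mpr (hflt s0 hs0 hs0R)
  have hMpos : 0 < M := hmpos.trans_le (hmin s0 hs0 hs0R)
  -- forward invariance
  have hSm : ∀ z, z ≠ 0 → |z| ≤ R → |f z| = m * |z| → |f (f z)| = m * |f z| := by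
    intro z hz hzR h
    have hTz : T z = m := (hTeq z hz m).mpr h
    have h1 : T (g z) ≤ m := by
      rw [← hTz]; exact hTg z hz hzR
    have hgz := hgne z hz hzR
    have h2 : m ≤ T (g z) := hmin (g z) hgz ((hglt z hz hzR).le.trans hzR)
    have h3 : |f (g z)| = m * |g z| := (hTeq _ hgz m).mp (le_antisymm h1 h2)
    rw [hcomm] at h3
    have h4 := habs z (hRε z hzR)
    have h5 := habs (f z) (hRε _ ((hflt z hz hzR).le.trans hzR))
    have e1 : |g (f z)| = |f z| - |f (f z)| := by linarith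
    have e2 : |g z| = |z| - |f z| := by linarith
    rw [e1, e2] at h3
    rw [h] at h3 ⊢
    linarith
  have hSM : ∀ s, s ≠ 0 → |s| ≤ R → |f s| = M * |s| → |f (f s)| = M * |f s| := by
    intro s hs hsR h
    have hTs : T s = M := (hTeq s hs M).mpr h
    have hfs := hfne s hs hsR
    have h1 : M ≤ T (f s) := by
      rw [← hTs]; exact hTf s hs hsR
    have h2 : T (f s) ≤ M := hmax (f s) hfs ((hflt s hs hsR).le.trans hsR)
    exact (hTeq _ hfs M).mp (le_antisymm h2 h1)
  -- order lemma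
  have hord : ∀ z s, z ≠ 0 → s ≠ 0 → |z| ≤ R → |s| ≤ R → |f z| = m * |z| → 0 < z * s →
      |s| < |z| → |f s| < |f z| := by
    intro z s hz hs hzR hsR hfz hzs hlt
    by_contra hcon
    push Not at hcon
    have hsz := hsf z hz (hRε z hzR)
    have hss := hsf s hs (hRε s hsR)
    have h1 : 0 ≤ f z * f s := by
      have h1 : 0 < (z * f z) * (s * f s) := mul_pos_of_neg_of_neg hsz hss
      have h2 : (z * f z) * (s * f s) = (z * s) * (f z * f s) := by ring
      rw [h2] at h1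
      exact (pos_of_mul_pos_right h1 hzs.le).le
    obtain ⟨x, hx, hxz⟩ := ivt0 hf f0 s (f z) (mem_uIcc0_of h1 hcon)
    have hx0 : x ≠ 0 := by
      intro h
      rw [h, f0] at hxz
      exact hfne z hz hzR hxz.symm
    have hxs : |x| ≤ |s| := (of_mem_uIcc0 hx).2
    have hxR : |x| ≤ R := hxs.trans hsR
    have h2 : T x ≤ T (f x) := hTf x hx0 hxR
    have h3 : T (f x) = m := by
      rw [hxz, hTeq _ (hfne z hz hzR)]
      exact hSm z hz hzR hfz
    rw [h3] at h2
    have h4 : |f x| ≤ m * |x| := by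
      have : |f x| / |x| ≤ m := h2
      rwa [div_le_iff₀ (abs_pos.mpr hx0)] at this
    rw [hxz, hfz] at h4
    have h5 := le_of_mul_le_mul_left h4 hmpos
    linarith
  have hsfpos : ∀ z s, z ≠ 0 → s ≠ 0 → |z| ≤ R → |s| ≤ R → 0 < z * s → 0 < f z * f s := by
    intro z s hz hs hzR hsR hzs
    have hsz := hsf z hz (hRε z hzR)
    have hss := hsf s hs (hRε s hsR)
    have h1 : 0 < (z * f z) * (s * f s) := mul_pos_of_neg_of_neg hsz hss
    have h2 : (z * f z) * (s * f s) = (z * s) * (f z * f s) := by ring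
    rw [h2] at h1
    exact pos_of_mul_pos_right h1 hzs.le
  have hMm : M ≤ m := by
    have claim : ∀ n : ℕ, ∀ z s, z ≠ 0 → s ≠ 0 → |z| ≤ R → |s| ≤ R → |f z| = m * |z| →
        |f s| = M * |s| → 0 < z * s → |s| < |z| → |s| * M ^ n < |z| * m ^ n := by
      intro n
      induction n with
      | zero =>
        intro z s hz hs hzR hsR hfz hfs hzs hlt
        simpa using hlt
      | succ n ih =>
        intro z s hz hs hzR hsR hfz hfs hzs hlt
        have h1 := hord z s hz hs hzR hsR hfz hzs hlt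
        have h2 := ih (f z) (f s) (hfne z hz hzR) (hfne s hs hsR)
          ((hflt z hz hzR).le.trans hzR) ((hflt s hs hsR).le.trans hsR)
          (hSm z hz hzR hfz) (hSM s hs hsR hfs) (hsfpos z s hz hs hzR hsR hzs) h1
        rw [hfz, hfs] at h2
        calc |s| * M ^ (n+1) = M * |s| * M ^ n := by ring
          _ < m * |z| * m ^ n := h2
          _ = |z| * m ^ (n+1) := by ring
    have hsmall : ∀ n : ℕ, ∃ s, s ≠ 0 ∧ |s| ≤ R ∧ |f s| = M * |s| ∧ |s| = M ^ n * |s0| := by
      intro n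
      induction n with
      | zero => exact ⟨s0, hs0, hs0R, (hTeq s0 hs0 M).mp rfl, by simp⟩
      | succ n ih =>
        obtain ⟨s, h1, h2, h3, h4⟩ := ih
        refine ⟨f s, hfne s h1 h2, (hflt s h1 h2).le.trans h2, hSM s h1 h2 h3, ?_⟩
        rw [h3, h4]
        ring
    obtain ⟨n, hn⟩ : ∃ n : ℕ, M ^ n * |s0| < |z0| := by
      have h1 : 0 < |z0| / |s0| := div_pos (abs_pos.mpr hz0) (abs_pos.mpr hs0)
      obtain ⟨n, hn⟩ := exists_pow_lt_of_lt_one h1 hMlt
      exact ⟨n, (lt_div_iff₀ (abs_pos.mpr hs0)).mp hn⟩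
    obtain ⟨s, h1, h2, h3, h4⟩ := hsmall n
    have hss : ∃ s, s ≠ 0 ∧ |s| ≤ R ∧ |f s| = M * |s| ∧ |s| < |z0| ∧ 0 < z0 * s := by
      rcases lt_or_gt_of_ne (mul_ne_zero hz0 h1) with h | h
      · refine ⟨f s, hfne s h1 h2, (hflt s h1 h2).le.trans h2, hSM s h1 h2 h3, ?_, ?_⟩
        · have := hflt s h1 h2
          rw [h4] at this
          exact this.trans hn
        · have h5 := hsf s h1 (hRε s h2)
          have h6 : 0 < (z0 * s) * (s * f s) := mul_pos_of_neg_of_neg h h5
          have h7 : (z0 * s) * (s * f s) = s ^ 2 * (z0 * f s) := by ring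
          rw [h7] at h6
          exact pos_of_mul_pos_right h6 (by positivity)
      · exact ⟨s, h1, h2, h3, by rw [h4]; exact hn, h⟩
    obtain ⟨s, hs, hsR, hfs, hslt, hzs⟩ := hss
    by_contra hcon
    push Not at hcon
    have hratio : 1 < M / m := (one_lt_div hmpos).mpr hcon
    obtain ⟨k, hk⟩ := pow_unbounded_of_one_lt (|z0| / |s|) hratio
    have h5 := claim k z0 s hz0 hs hz0R hsR ((hTeq z0 hz0 m).mp rfl) hfs hzs hslt
    rw [div_pow, div_lt_div_iff₀ (abs_pos.mpr hs) (by positivity)] at hk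
    linarith
  refine ⟨m, hmpos, (hmin s0 hs0 hs0R).trans_lt hMlt, ?_⟩
  intro x hxR
  by_cases hx : x = 0
  · rw [hx, f0]; simp
  · rw [← hTeq x hx]
    exact le_antisymm ((hmax x hx hxR).trans hMm) (hmin x hx hxR)

end I

/-! ### Regime II -/

section II

variable {f g : ℝ → ℝ} {ε : ℝ}

lemma preII (hf : Continuous f) (f0 : f 0 = 0)
    (habs : ∀ x, |x| < ε → |f x| = |x| + |g x|)
    (hsf : ∀ x, x ≠ 0 → |x| < ε → x * f x < 0) {x : ℝ} (hx0 : x ≠ 0) (hx : |x| < ε) :
    ∃ w, w ≠ 0 ∧ w * x < 0 ∧ |w| ≤ |x| ∧ f w = x := by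
  have h1 : |(-x)| < ε := by rwa [abs_neg]
  have h2 := hsf (-x) (neg_ne_zero.mpr hx0) h1
  have h3 : |x| ≤ |f (-x)| := by
    have := habs (-x) h1
    rw [abs_neg] at this
    have h4 := abs_nonneg (g (-x))
    linarith
  obtain ⟨w, hw, hwx⟩ := ivt0 hf f0 (-x) x (mem_uIcc0_of (by linarith) h3)
  have hw0 : w ≠ 0 := by
    intro h
    rw [h, f0] at hwx
    exact hx0 hwx.symm
  have h5 := of_mem_uIcc0 hw
  rw [abs_neg] at h5
  refine ⟨w, hw0, ?_, h5.2, hwx⟩
  have h6 : w * x ≠ 0 := mul_ne_zero hw0 hx0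
  have h7 : w * x ≤ 0 := by linarith [h5.1]
  exact lt_of_le_of_ne h7 h6

lemma lcII_aux (hf : Continuous f) (f0 : f 0 = 0) (g0 : g 0 = 0)
    (hcomm : ∀ x, |x| < ε → f (g x) = g (f x))
    (habs : ∀ x, |x| < ε → |f x| = |x| + |g x|)
    (hsf : ∀ x, x ≠ 0 → |x| < ε → x * f x < 0) :
    ∀ n : ℕ, ∀ x, |x| < ε → |f x| < ε → |f (f x)| < ε → ∀ a b : ℝ,
      0 ≤ a ^ 2 * |f (f x)| + 2 * a * b * n * |g (f x)|
        + b ^ 2 * (n * (n - 1) * |g (g x)| + n * |g (f x)|) := by
  intro n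
  induction n with
  | zero =>
    intro x hx _ _ a b
    have : 0 ≤ a ^ 2 * |f (f x)| := by positivity
    simpa using this
  | succ n ih =>
    intro x hx hfx hffx a b
    by_cases hx0 : x = 0
    · rw [hx0, f0, g0, f0, g0]
      simp
    obtain ⟨w, hw0, -, hwx, hw⟩ := preII hf f0 habs hsf hx0 hx
    have hwε : |w| < ε := lt_of_le_of_lt hwx hx
    have a1 := habs w hwε
    have hgw : |g w| < ε := by
      have := abs_nonneg w
      rw [hw] at a1
      linarith
    have c1 : f (g w) = g x := by rw [hcomm w hwε, hw]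
    have a2 := habs (g w) hgw
    rw [c1] at a2
    have a3 := habs x hx
    have hgx : |g x| < ε := by
      have := abs_nonneg x
      linarith
    have hggw : |g (g w)| < ε := by
      have := abs_nonneg (g w)
      linarith
    have c2 : f (g (g w)) = g (g x) := by rw [hcomm (g w) hgw, c1]
    have a4 := habs (g (g w)) hggw
    rw [c2] at a4
    have a5 := habs (f x) hfx
    have a6 := habs (g x) hgx
    rw [hcomm x hx] at a6
    have hgfx : |g (f x)| < ε := by
      have := abs_nonneg (f x)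
      linarith
    have h1 := ih w hwε (by rw [hw]; exact hx) (by rw [hw]; exact hfx) a b
    have h2 := ih (g w) hgw (by rw [c1]; exact hgx)
      (by rw [c1, hcomm x hx]; exact hgfx) (a + b) b
    rw [hw] at h1
    rw [c1, hcomm x hx] at h2
    rw [a6] at h2
    rw [a4] at h2
    rw [a5, a6, a3, a4]
    rw [a3] at h1
    push_cast
    have h3 := add_nonneg h1 h2
    refine le_of_le_of_eq h3 ?_
    ring

lemma lcII (hf : Continuous f) (f0 : f 0 = 0) (g0 : g 0 = 0)
    (hcomm : ∀ x, |x| < ε → f (g x) = g (f x))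
    (habs : ∀ x, |x| < ε → |f x| = |x| + |g x|)
    (hsf : ∀ x, x ≠ 0 → |x| < ε → x * f x < 0) {x : ℝ} (hx0 : x ≠ 0) (hx : |x| < ε)
    (hfx : |f x| < ε) (hffx : |f (f x)| < ε) :
    |g x| ^ 2 ≤ |x| * |g (g x)| := by
  have a3 := habs x hx
  have hgx : |g x| < ε := by
    have := abs_nonneg x
    linarith
  have a5 := habs (f x) hfx
  have a6 := habs (g x) hgx
  rw [hcomm x hx] at a6
  have hpos : 0 < |f (f x)| := by
    have h1 := abs_pos.mpr hx0
    have h2 := abs_nonneg (g x)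
    have h3 := abs_nonneg (g (f x))
    linarith
  have h := lc_of_forall hpos
    (fun n a b => lcII_aux hf f0 g0 hcomm habs hsf n x hx hfx hffx a b)
  rw [a5, a3, a6] at h
  nlinarith

theorem regimeII_abs (hf : Continuous f) (hg : Continuous g) (f0 : f 0 = 0) (g0 : g 0 = 0)
    (hε : 0 < ε)
    (hcomm : ∀ x, |x| < ε → f (g x) = g (f x))
    (habs : ∀ x, |x| < ε → |f x| = |x| + |g x|)
    (hsf : ∀ x, x ≠ 0 → |x| < ε → x * f x < 0)
    (hsg : ∀ x, x ≠ 0 → |x| < ε → x * g x < 0) :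
    ∃ m, 0 < m ∧ ∃ R, 0 < R ∧ R < ε ∧ ∀ x, |x| ≤ R → |g x| = m * |x| := by
  obtain ⟨R, hRpos, hRall⟩ : ∃ R, 0 < R ∧ ∀ x, |x| ≤ R →
      |x| < ε ∧ |f x| < ε ∧ |f (f x)| < ε := by
    have hopen : IsOpen {x : ℝ | |x| < ε ∧ |f x| < ε ∧ |f (f x)| < ε} := by
      refine (isOpen_lt continuous_abs continuous_const).inter
        ((isOpen_lt hf.abs continuous_const).inter
          (isOpen_lt (hf.comp hf).abs continuous_const))
    have h0 : (0:ℝ) ∈ {x : ℝ | |x| < ε ∧ |f x| < ε ∧ |f (f x)| < ε} := by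
      simp only [Set.mem_ofPred_eq, f0, abs_zero]
      exact ⟨hε, hε, hε⟩
    obtain ⟨r, hr, hball⟩ := Metric.isOpen_iff.mp hopen 0 h0
    refine ⟨r / 2, by positivity, ?_⟩
    intro x hx
    have : x ∈ Metric.ball (0:ℝ) r := by
      rw [Metric.mem_ball, Real.dist_eq, sub_zero]
      linarith
    exact hball this
  have hRε : ∀ x, |x| ≤ R → |x| < ε := fun x hx => (hRall x hx).1
  have hRlt : R < ε := by
    have := hRε R (by rw [abs_of_pos hRpos])
    rwa [abs_of_pos hRpos] at this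
  have hfne : ∀ x, x ≠ 0 → |x| < ε → f x ≠ 0 := by
    intro x hx hxR h
    have := hsf x hx hxR
    rw [h] at this
    simp at this
  have hgne : ∀ x, x ≠ 0 → |x| < ε → g x ≠ 0 := by
    intro x hx hxR h
    have := hsg x hx hxR
    rw [h] at this
    simp at this
  have hLC : ∀ x, x ≠ 0 → |x| ≤ R → |g x| ^ 2 ≤ |x| * |g (g x)| :=
    fun x hx hxR => lcII hf f0 g0 hcomm habs hsf hx (hRε x hxR) (hRall x hxR).2.1
      (hRall x hxR).2.2
  set T : ℝ → ℝ := fun x => |g x| / |x| with hT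
  have hTeq : ∀ x, x ≠ 0 → ∀ m, T x = m ↔ |g x| = m * |x| := by
    intro x hx m
    have hx' : |x| ≠ 0 := abs_ne_zero.mpr hx
    rw [hT]
    exact div_eq_iff hx'
  have hTc : ∀ x, x ≠ 0 → |x| ≤ R → ContinuousAt T x := by
    intro x hx _
    have hx' : |x| ≠ 0 := abs_ne_zero.mpr hx
    exact (hg.abs.continuousAt).div continuous_abs.continuousAt hx'
  have hbasic : ∀ x, x ≠ 0 → |x| ≤ R → |f x| = |x| + |g x| ∧
      |g (f x)| = |g x| + |g (g x)| := by
    intro x hx hxR
    have h1 := habs x (hRε x hxR)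
    refine ⟨h1, ?_⟩
    have hgx : |g x| < ε := by
      have := abs_nonneg x
      have := (hRall x hxR).2.1
      linarith
    have a6 := habs (g x) hgx
    rwa [hcomm x (hRε x hxR)] at a6
  have hTf : ∀ x, x ≠ 0 → |x| ≤ R → T x ≤ T (f x) := by
    intro x hx hxR
    have h1 := hLC x hx hxR
    have h2 := abs_pos.mpr hx
    have h3 := abs_pos.mpr (hfne x hx (hRε x hxR))
    obtain ⟨b1, b2⟩ := hbasic x hx hxR
    simp only [hT]
    rw [div_le_div_iff₀ h2 h3, b1, b2]
    nlinarith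
  have hTg : ∀ x, x ≠ 0 → |x| ≤ R → T (f x) ≤ T (g x) := by
    intro x hx hxR
    have h1 := hLC x hx hxR
    have h2 := abs_pos.mpr (hgne x hx (hRε x hxR))
    have h3 := abs_pos.mpr (hfne x hx (hRε x hxR))
    obtain ⟨b1, b2⟩ := hbasic x hx hxR
    simp only [hT]
    rw [div_le_div_iff₀ h3 h2, b1, b2]
    nlinarith
  obtain ⟨z0, hz0, hz0R, hmin⟩ : ∃ z0, z0 ≠ 0 ∧ |z0| ≤ R ∧
      ∀ x, x ≠ 0 → |x| ≤ R → T z0 ≤ T x := by
    set δ := R / 2 with hδ
    have hδpos : 0 < δ := by positivity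
    have habsδ : ∀ x, (x = δ ∨ x = -δ) → |x| = δ := by
      rintro x (h | h)
      · rw [h, abs_of_pos hδpos]
      · rw [h, abs_neg, abs_of_pos hδpos]
    have hδne : ∀ x, (x = δ ∨ x = -δ) → x ≠ 0 := by
      intro x hx h0
      have := habsδ x hx
      rw [h0, abs_zero] at this
      linarith
    have hδε : ∀ x, (x = δ ∨ x = -δ) → |x| < ε := by
      intro x hx
      rw [habsδ x hx]
      linarith
    have hside : ∀ z : ℝ, z ≠ 0 → ∃ x, (x = δ ∨ x = -δ) ∧ 0 < x * z := by
      intro z hz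
      rcases lt_or_gt_of_ne hz with h | h
      · exact ⟨-δ, Or.inr rfl, mul_pos_of_neg_of_neg (by linarith) h⟩
      · exact ⟨δ, Or.inl rfl, mul_pos hδpos h⟩
    have hgδ : 0 < |g δ| :=
      abs_pos.mpr (hgne δ (hδne _ (Or.inl rfl)) (hδε _ (Or.inl rfl)))
    have hgδ' : 0 < |g (-δ)| :=
      abs_pos.mpr (hgne (-δ) (hδne _ (Or.inr rfl)) (hδε _ (Or.inr rfl)))
    have hc : 0 < min (min |g δ| |g (-δ)|) (R / 2) := lt_min (lt_min hgδ hgδ') (by positivity)
    have hcR : min (min |g δ| |g (-δ)|) (R / 2) ≤ R := (min_le_right _ _).trans (by linarith)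
    refine exists_min_of_outward hc hcR T hTc ?_
    intro z hz hzc
    obtain ⟨x, hx, hxz⟩ := hside (-z) (neg_ne_zero.mpr hz)
    have hxc : |z| ≤ |g x| := by
      rcases hx with h | h
      · rw [h]; exact hzc.le.trans ((min_le_left _ _).trans (min_le_left _ _))
      · rw [h]; exact hzc.le.trans ((min_le_left _ _).trans (min_le_right _ _))
    have hzR : |z| < R / 2 := hzc.trans_le (min_le_right _ _)
    have hsx := hsg x (hδne x hx) (hδε x hx)
    have hzfx : 0 ≤ z * g x := by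
      have h1 : 0 < (x * g x) * (x * z) := mul_pos_of_neg_of_neg hsx (by linarith)
      have h2 : (x * g x) * (x * z) = x ^ 2 * (z * g x) := by ring
      rw [h2] at h1
      exact (pos_of_mul_pos_right h1 (by positivity)).le
    obtain ⟨w, hw, hwz⟩ := ivt0 hg g0 x z (mem_uIcc0_of hzfx hxc)
    have hw0 : w ≠ 0 := by
      intro h
      rw [h, g0] at hwz
      exact hz hwz.symm
    have hwδ : |w| ≤ δ := by
      have := (of_mem_uIcc0 hw).2
      rwa [habsδ x hx] at this
    have hwR : |w| ≤ R := by linarith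
    have hb := (hbasic w hw0 hwR).1
    rw [hwz] at hb
    have hwpos := abs_pos.mpr hw0
    refine ⟨f w, by linarith, by linarith, ?_⟩
    have := hTg w hw0 hwR
    rwa [hwz] at this
  obtain ⟨s0, hs0, hs0R, hmax⟩ : ∃ s0, s0 ≠ 0 ∧ |s0| ≤ R ∧
      ∀ x, x ≠ 0 → |x| ≤ R → T x ≤ T s0 := by
    obtain ⟨c, hc, hcall⟩ : ∃ c, 0 < c ∧ ∀ x, |x| < c → |f x| < R := by
      have hopen : IsOpen {x : ℝ | |f x| < R} := isOpen_lt hf.abs continuous_const
      have h0 : (0:ℝ) ∈ {x : ℝ | |f x| < R} := by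
        simp only [Set.mem_ofPred_eq, f0, abs_zero]
        exact hRpos
      obtain ⟨r, hr, hball⟩ := Metric.isOpen_iff.mp hopen 0 h0
      refine ⟨r, hr, ?_⟩
      intro x hx
      have : x ∈ Metric.ball (0:ℝ) r := by
        rw [Metric.mem_ball, Real.dist_eq, sub_zero]
        exact hx
      exact hball this
    have hc' : 0 < min c R := lt_min hc hRpos
    obtain ⟨s0, h1, h2, h3⟩ := exists_min_of_outward hc' (min_le_right _ _) (fun x => - T x)
      (fun x hx hxR => (hTc x hx hxR).neg) (by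
        intro z hz hzc
        have hzR : |z| ≤ R := hzc.le.trans (min_le_right _ _)
        have hfz := hcall z (hzc.trans_le (min_le_left _ _))
        have hb := (hbasic z hz hzR).1
        have hgz := abs_pos.mpr (hgne z hz (hRε z hzR))
        exact ⟨f z, by linarith, hfz.le, neg_le_neg (hTf z hz hzR)⟩)
    exact ⟨s0, h1, h2, fun x hx hxR => neg_le_neg_iff.mp (h3 x hx hxR)⟩
  set m := T z0 with hm
  set M := T s0 with hM
  have hmpos : 0 < m := by
    rw [hm, hT]
    exact div_pos (abs_pos.mpr (hgne z0 hz0 (hRε z0 hz0R))) (abs_pos.mpr hz0)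
  have hMpos : 0 < M := hmpos.trans_le (hmin s0 hs0 hs0R)
  -- backward invariance
  have hSm : ∀ y, y ≠ 0 → |y| ≤ R → |g (f y)| = m * |f y| → |g y| = m * |y| := by
    intro y hy hyR h
    have hfy := hfne y hy (hRε y hyR)
    have hTz : T (f y) = m := (hTeq _ hfy m).mpr h
    have h1 := hTf y hy hyR
    rw [hTz] at h1
    exact (hTeq y hy m).mp (le_antisymm h1 (hmin y hy hyR))
  have hSM : ∀ y, y ≠ 0 → |y| ≤ R → |f y| ≤ R → |g (f y)| = M * |f y| → |g y| = M * |y| := by
    intro y hy hyR hfyR h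
    obtain ⟨b1, b2⟩ := hbasic y hy hyR
    have hgy := hgne y hy (hRε y hyR)
    have hgyR : |g y| ≤ R := by
      have := abs_nonneg y
      linarith
    have h1 : |g y| ≤ M * |y| := by
      have : |g y| / |y| ≤ M := hmax y hy hyR
      rwa [div_le_iff₀ (abs_pos.mpr hy)] at this
    have h2 : |g (g y)| ≤ M * |g y| := by
      have : |g (g y)| / |g y| ≤ M := hmax (g y) hgy hgyR
      rwa [div_le_iff₀ (abs_pos.mpr hgy)] at this
    rw [b1, b2] at h
    linarith
  have hMm : M ≤ m := by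
    have claim : ∀ n : ℕ, ∀ z s, z ≠ 0 → s ≠ 0 → |z| ≤ R → |s| ≤ R → |g z| = m * |z| →
        |g s| = M * |s| → 0 < z * s → |z| < |s| → |z| * (1 + M) ^ n < |s| * (1 + m) ^ n := by
      intro n
      induction n with
      | zero =>
        intro z s hz hs hzR hsR hgz hgs hzs hlt
        simpa using hlt
      | succ n ih =>
        intro z s hz hs hzR hsR hgz hgs hzs hlt
        obtain ⟨s', hs'0, -, hs's, hs'⟩ := preII hf f0 habs hsf hs (hRε s hsR)
        have hs'R : |s'| ≤ R := hs's.trans hsR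
        obtain ⟨z', hz'mem, hz'⟩ := ivt0 hf f0 s' z (by
          rw [hs']; exact mem_uIcc0_of hzs.le hlt.le)
        have hz'0 : z' ≠ 0 := by
          intro h
          rw [h, f0] at hz'
          exact hz hz'.symm
        obtain ⟨hz's', hz'le⟩ := of_mem_uIcc0 hz'mem
        have hz'R : |z'| ≤ R := hz'le.trans hs'R
        have hpos' : 0 < z' * s' := lt_of_le_of_ne hz's' (mul_ne_zero hz'0 hs'0).symm
        have hlt' : |z'| < |s'| := by
          refine lt_of_le_of_ne hz'le ?_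
          intro h
          rcases abs_eq_abs.mp h with h1 | h1
          · rw [h1, hs'] at hz'
            rw [hz'] at hlt
            exact lt_irrefl _ hlt
          · rw [h1] at hpos'
            nlinarith [sq_nonneg s']
        have hgz' : |g z'| = m * |z'| := hSm z' hz'0 hz'R (by rw [hz']; exact hgz)
        have hgs' : |g s'| = M * |s'| := hSM s' hs'0 hs'R (by rw [hs']; exact hsR)
          (by rw [hs']; exact hgs)
        have hb1 := (hbasic z' hz'0 hz'R).1
        have hb2 := (hbasic s' hs'0 hs'R).1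
        rw [hz', hgz'] at hb1
        rw [hs', hgs'] at hb2
        have h2 := ih z' s' hz'0 hs'0 hz'R hs'R hgz' hgs' hpos' hlt'
        rw [hb1, hb2]
        have h3 : 0 < (1 + m) * (1 + M) := by positivity
        calc (|z'| + m * |z'|) * (1 + M) ^ (n + 1)
            = (1 + m) * (1 + M) * (|z'| * (1 + M) ^ n) := by ring
          _ < (1 + m) * (1 + M) * (|s'| * (1 + m) ^ n) := mul_lt_mul_of_pos_left h2 h3
          _ = (|s'| + M * |s'|) * (1 + m) ^ (n + 1) := by ring
    have hsmall : ∀ n : ℕ, ∃ z, z ≠ 0 ∧ |z| ≤ R ∧ |g z| = m * |z| ∧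
        |z| * (1 + m) ^ n = |z0| := by
      intro n
      induction n with
      | zero => exact ⟨z0, hz0, hz0R, (hTeq z0 hz0 m).mp rfl, by simp⟩
      | succ n ih =>
        obtain ⟨z, h1, h2, h3, h4⟩ := ih
        obtain ⟨w, hw0, -, hwz, hw⟩ := preII hf f0 habs hsf h1 (hRε z h2)
        have hwR : |w| ≤ R := hwz.trans h2
        have hgw := hSm w hw0 hwR (by rw [hw]; exact h3)
        refine ⟨w, hw0, hwR, hgw, ?_⟩
        have hb := (hbasic w hw0 hwR).1
        rw [hw, hgw] at hb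
        rw [← h4, hb]
        ring
    obtain ⟨n, hn⟩ : ∃ n : ℕ, |z0| < |s0| * (1 + m) ^ n := by
      obtain ⟨n, hn⟩ := pow_unbounded_of_one_lt (|z0| / |s0|) (by linarith : 1 < 1 + m)
      refine ⟨n, ?_⟩
      rw [div_lt_iff₀ (abs_pos.mpr hs0)] at hn
      linarith
    obtain ⟨z, h1, h2, h3, h4⟩ := hsmall n
    have hzlt : |z| < |s0| := by
      rw [← h4] at hn
      exact lt_of_mul_lt_mul_right hn (by positivity)
    have hss : ∃ z, z ≠ 0 ∧ |z| ≤ R ∧ |g z| = m * |z| ∧ |z| < |s0| ∧ 0 < z * s0 := by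
      rcases lt_or_gt_of_ne (mul_ne_zero h1 hs0) with h | h
      · obtain ⟨w, hw0, hwz0, hwz, hw⟩ := preII hf f0 habs hsf h1 (hRε z h2)
        have hwR : |w| ≤ R := hwz.trans h2
        have hgw := hSm w hw0 hwR (by rw [hw]; exact h3)
        refine ⟨w, hw0, hwR, hgw, hwz.trans_lt hzlt, ?_⟩
        have h6 : 0 < (w * z) * (z * s0) := mul_pos_of_neg_of_neg hwz0 h
        have h7 : (w * z) * (z * s0) = z ^ 2 * (w * s0) := by ring
        rw [h7] at h6
        exact pos_of_mul_pos_right h6 (by positivity)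
      · exact ⟨z, h1, h2, h3, hzlt, h⟩
    obtain ⟨z, hz, hzR, hgz, hzlt, hzs⟩ := hss
    by_contra hcon
    push Not at hcon
    have hratio : 1 < (1 + M) / (1 + m) := (one_lt_div (by positivity)).mpr (by linarith)
    obtain ⟨k, hk⟩ := pow_unbounded_of_one_lt (|s0| / |z|) hratio
    have h5 := claim k z s0 hz hs0 hzR hs0R hgz ((hTeq s0 hs0 M).mp rfl) hzs hzlt
    rw [div_pow, div_lt_div_iff₀ (abs_pos.mpr hz) (by positivity)] at hk
    linarith
  refine ⟨m, hmpos, R, hRpos, hRlt, ?_⟩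
  intro x hxR
  by_cases hx : x = 0
  · rw [hx, g0]; simp
  · rw [← hTeq x hx]
    exact le_antisymm ((hmax x hx hxR).trans hMm) (hmin x hx hxR)

end II

end H464.Forti
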