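import Pool.Agent.H464R3.FortiA

/-!
Assembly of the classification of the continuous solutions of
`f (x + f x) = f x + f (f x)`.
-/

namespace H464.Forti

variable {f : ℝ → ℝ}

lemma sol_zero (heq : ∀ x, f (x + f x) = f x + f (f x)) : f 0 = 0 := by
  have := heq 0
  rw [zero_add] at this
  linarith

lemma mirror_eq (heq : ∀ x, f (x + f x) = f x + f (f x)) :
    ∀ x, (fun t => - f (-t)) (x + (fun t => - f (-t)) x)
      = (fun t => - f (-t)) x + (fun t => - f (-t)) ((fun t => - f (-t)) x) := by
  intro x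
  have h := heq (-x)
  simp only [neg_neg]
  have e : -(x + -f (-x)) = -x + f (-x) := by ring
  rw [e, h]
  ring

lemma mirror_cont (hf : Continuous f) : Continuous (fun t => - f (-t)) :=
  (hf.comp continuous_neg).neg

lemma ext_of_factor {P : ℝ → Prop} (hmono : ∀ R R', R ≤ R' → P R' → P R) {κ δ : ℝ}
    (hκ : 1 < κ) (hδ : 0 < δ) (h0 : P δ) (hstep : ∀ R, 0 < R → P R → P (κ * R)) :
    ∀ R, P R := by
  have h1 : ∀ n : ℕ, P (κ ^ n * δ) := by
    intro n
    induction n with
    | zero => simpa using h0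
    | succ n ih =>
      have := hstep (κ ^ n * δ) (by positivity) ih
      have e : κ ^ (n + 1) * δ = κ * (κ ^ n * δ) := by ring
      rw [e]; exact this
  intro R
  obtain ⟨n, hn⟩ := pow_unbounded_of_one_lt (R / δ) hκ
  rw [div_lt_iff₀ hδ] at hn
  exact hmono _ _ hn.le (h1 n)

lemma eq_of_abs_of_neg {x y m : ℝ} (h : |y| = m * |x|) (hxy : x * y < 0) : y = -m * x := by
  rcases lt_trichotomy x 0 with hx | hx | hx
  · have hy : 0 < y := by
      by_contra hc
      push Not at hc
      have := mul_nonneg_of_nonpos_of_nonpos hx.le hc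
      linarith
    rw [abs_of_pos hy, abs_of_neg hx] at h
    linarith
  · rw [hx] at hxy
    simp at hxy
  · have hy : y < 0 := by
      by_contra hc
      push Not at hc
      have := mul_nonneg hx.le hc
      linarith
    rw [abs_of_neg hy, abs_of_pos hx] at h
    linarith

/-- Regime I: the solution is linear with slope in `(-1, 0)`. -/
theorem regimeI_linear (hf : Continuous f) (heq : ∀ x, f (x + f x) = f x + f (f x))
    {ε : ℝ} (hε : 0 < ε) (h1 : ∀ x, x ≠ 0 → |x| < ε → x * f x < 0)
    (h2 : ∀ x, x ≠ 0 → |x| < ε → 0 < x * (x + f x)) :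
    ∃ a : ℝ, a < 0 ∧ ∀ x, f x = a * x := by
  have f0 := sol_zero heq
  obtain ⟨m, hm0, hm1, hm⟩ := regimeI_abs (f := f) (g := fun x => x + f x) hf
    (continuous_id.add hf) f0 (by simp [f0]) (fun x => heq x) hε
    (fun x hx => by
      by_cases hx0 : x = 0
      · simp [hx0, f0]
      · exact abs_split_I (h1 x hx0 hx) (h2 x hx0 hx)) h1 h2
  refine ⟨-m, by linarith, ?_⟩
  have hloc : ∀ x, |x| ≤ ε / 2 → f x = -m * x := by
    intro x hx
    by_cases hx0 : x = 0
    · rw [hx0, f0]; simp
    · exact eq_of_abs_of_neg (hm x hx) (h1 x hx0 (by linarith))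
  by_contra hcon
  push Not at hcon
  obtain ⟨x1, hx1⟩ := hcon
  set S : Set ℝ := {s | ∀ x, |x| ≤ s → f x = -m * x} with hS
  have hSb : BddAbove S := by
    refine ⟨|x1|, ?_⟩
    intro s hs
    by_contra hlt
    push Not at hlt
    exact hx1 (hs x1 hlt.le)
  have hSδ : ε / 2 ∈ S := hloc
  set t := sSup S with ht
  have htpos : 0 < t := lt_of_lt_of_le (by positivity) (le_csSup hSb hSδ)
  have hlt : ∀ x, |x| < t → f x = -m * x := by
    intro x hx
    obtain ⟨s, hs, hxs⟩ := exists_lt_of_lt_csSup ⟨_, hSδ⟩ hx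
    exact hs x hxs.le
  have hle : ∀ x, |x| ≤ t → f x = -m * x := by
    have hcl : IsClosed {x : ℝ | f x = -m * x} :=
      isClosed_eq hf (continuous_const.mul continuous_id)
    have hsub : Metric.ball (0:ℝ) t ⊆ {x : ℝ | f x = -m * x} := by
      intro x hx
      rw [Metric.mem_ball, Real.dist_eq, sub_zero] at hx
      exact hlt x hx
    have h3 := closure_minimal hsub hcl
    rw [closure_ball (0:ℝ) htpos.ne'] at h3
    intro x hx
    apply h3
    rw [Metric.mem_closedBall, Real.dist_eq, sub_zero]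
    exact hx
  have hUopen : IsOpen {x : ℝ | |f x| < t ∧ |x + f x| < t} :=
    (isOpen_lt hf.abs continuous_const).inter
      (isOpen_lt (continuous_id.add hf).abs continuous_const)
  have hU : ∀ x, |f x| < t → |x + f x| < t → f x = -m * x := by
    intro x h3 h4
    have h5 := heq x
    rw [hlt _ h3, hlt _ h4] at h5
    have h6 : (f x + m * x) = 0 := by linarith
    linarith
  have hedge : ∀ x, |x| = t → ∃ r > 0, ∀ y, |y - x| < r → f y = -m * y := by
    intro x hx
    have hfx := hle x hx.le
    have hxU : x ∈ {x : ℝ | |f x| < t ∧ |x + f x| < t} := by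
      constructor
      · rw [hfx, abs_mul, abs_neg, abs_of_pos hm0, hx]
        nlinarith
      · have : x + f x = (1 - m) * x := by rw [hfx]; ring
        rw [this, abs_mul, abs_of_pos (by linarith : 0 < 1 - m), hx]
        nlinarith
    obtain ⟨r, hr, hball⟩ := Metric.isOpen_iff.mp hUopen x hxU
    refine ⟨r, hr, ?_⟩
    intro y hy
    have := hball (show y ∈ Metric.ball x r by rwa [Metric.mem_ball, Real.dist_eq])
    exact hU y this.1 this.2
  obtain ⟨r1, hr1, hb1⟩ := hedge t (abs_of_pos htpos)
  obtain ⟨r2, hr2, hb2⟩ := hedge (-t) (by rw [abs_neg, abs_of_pos htpos])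
  have hmem : t + min r1 r2 / 2 ∈ S := by
    intro x hx
    rcases le_or_gt |x| t with h | h
    · exact hle x h
    · have hmin : 0 < min r1 r2 := lt_min hr1 hr2
      rcases le_total 0 x with hx0 | hx0
      · apply hb1
        rw [abs_of_nonneg hx0] at hx h
        rw [abs_of_pos (by linarith)]
        have := min_le_left r1 r2
        linarith
      · apply hb2
        rw [abs_of_nonpos hx0] at hx h
        rw [abs_of_neg (by linarith)]
        have := min_le_right r1 r2
        linarith
  have := le_csSup hSb hmem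
  have hmin : 0 < min r1 r2 := lt_min hr1 hr2
  linarith

/-- Regime II, local statement (with a local functional equation). -/
theorem regimeII_local (hf : Continuous f) {ε : ℝ} (hε : 0 < ε)
    (heq : ∀ x, |x| < ε → f (x + f x) = f x + f (f x))
    (h2 : ∀ x, x ≠ 0 → |x| < ε → x * (x + f x) < 0) :
    ∃ a : ℝ, a < -1 ∧ ∃ δ, 0 < δ ∧ δ < ε ∧ ∀ x, |x| ≤ δ → f x = a * x := by
  have f0 : f 0 = 0 := by
    have := heq 0 (by simpa using hε)
    rw [zero_add] at this
    linarith
  have h1 : ∀ x, x ≠ 0 → |x| < ε → x * f x < 0 := by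
    intro x hx hxε
    have := h2 x hx hxε
    nlinarith [sq_nonneg x]
  obtain ⟨m, hm0, R, hR, hRε, hm⟩ := regimeII_abs (f := f) (g := fun x => x + f x) hf
    (continuous_id.add hf) f0 (by simp [f0]) hε (fun x hx => heq x hx)
    (fun x hx => by
      by_cases hx0 : x = 0
      · simp [hx0, f0]
      · exact abs_split_II (h2 x hx0 hx)) h1 h2
  refine ⟨-(1 + m), by linarith, R, hR, hRε, ?_⟩
  intro x hx
  by_cases hx0 : x = 0
  · rw [hx0, f0]; simp
  · have := eq_of_abs_of_neg (hm x hx) (h2 x hx0 (by linarith))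
    linarith

/-- Regime II, global. -/
theorem regimeII_linear (hf : Continuous f) (heq : ∀ x, f (x + f x) = f x + f (f x))
    {ε : ℝ} (hε : 0 < ε) (h2 : ∀ x, x ≠ 0 → |x| < ε → x * (x + f x) < 0) :
    ∃ a : ℝ, a < 0 ∧ ∀ x, f x = a * x := by
  obtain ⟨a, ha, δ, hδ, -, hloc⟩ := regimeII_local hf hε (fun x _ => heq x) h2
  refine ⟨a, by linarith, ?_⟩
  set b := -a with hb
  have hb1 : 1 < b := by linarith
  have hκ : 1 < min b (b / (b - 1)) := by
    refine lt_min hb1 ?_
    rw [lt_div_iff₀ (by linarith)]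
    linarith
  have hall := ext_of_factor (P := fun R => ∀ x, |x| ≤ R → f x = a * x)
    (fun R R' h hP x hx => hP x (hx.trans h)) hκ hδ hloc (by
      intro R hR hP x hx
      have ha0 : a ≠ 0 := by linarith
      set y := x / a with hy
      have hxy : x = a * y := by rw [hy]; field_simp
      have habs : |x| = b * |y| := by
        rw [hxy, abs_mul, abs_of_neg (by linarith : a < 0)]
      have hy1 : |y| ≤ R := by
        have h3 : b * |y| ≤ b * R := by
          rw [← habs]
          exact hx.trans (mul_le_mul_of_nonneg_right (min_le_left _ _) hR.le)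
        exact le_of_mul_le_mul_left h3 (by linarith)
      have hy2 : |(1 + a) * y| ≤ R := by
        have h3 : b * |y| ≤ b / (b - 1) * R := by
          rw [← habs]
          exact hx.trans (mul_le_mul_of_nonneg_right (min_le_right _ _) hR.le)
        rw [abs_mul, abs_of_neg (by linarith : 1 + a < 0)]
        have h4 : b / (b - 1) * R = b * (R / (b - 1)) := by ring
        rw [h4] at h3
        have h5 := le_of_mul_le_mul_left h3 (by linarith)
        rw [le_div_iff₀ (by linarith)] at h5
        have : -(1 + a) = b - 1 := by rw [hb]; ring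
        rw [this]
        linarith
      have h3 := heq y
      rw [hP y hy1] at h3
      have e : y + a * y = (1 + a) * y := by ring
      rw [e, hP _ hy2] at h3
      rw [hxy]
      linarith)
  intro x
  exact hall |x| x le_rfl

/-- If `f > 0` on `(0, ε)` then `f x = a x` on `[0, ∞)`. -/
theorem pos_linear (hf : Continuous f) (heq : ∀ x, f (x + f x) = f x + f (f x))
    {ε : ℝ} (hε : 0 < ε) (hpos : ∀ x, 0 < x → x < ε → 0 < f x) :
    ∃ a : ℝ, 0 < a ∧ ∀ x, 0 ≤ x → f x = a * x := by
  have f0 := sol_zero heq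
  set F : ℝ → ℝ := fun x => -x - f (max x 0) + f (max (-x) 0) with hF
  have hFc : Continuous F := by
    rw [hF]
    have h1 : Continuous fun x : ℝ => f (max x 0) :=
      hf.comp (continuous_id.max continuous_const)
    have h2 : Continuous fun x : ℝ => f (max (-x) 0) :=
      hf.comp (continuous_neg.max continuous_const)
    exact (continuous_neg.sub h1).add h2
  have hFp : ∀ x, 0 ≤ x → F x = -(x + f x) := by
    intro x hx
    simp only [hF]
    rw [max_eq_left hx, max_eq_right (by linarith : -x ≤ 0), f0]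
    ring
  have hFn : ∀ u, 0 ≤ u → F (-u) = u + f u := by
    intro u hu
    simp only [hF]
    rw [neg_neg, max_eq_left hu, max_eq_right (by linarith : -u ≤ 0), f0]
    ring
  have hpos' : ∀ x, 0 ≤ x → x < ε → 0 ≤ f x := by
    intro x hx hxε
    rcases hx.eq_or_lt with h | h
    · rw [← h, f0]
    · exact (hpos x h hxε).le
  obtain ⟨a, ha, δ, hδ, hδε, hloc⟩ := regimeII_local hFc hε
    (by
      intro x hx
      rcases le_total 0 x with h | h
      · rw [abs_of_nonneg h] at hx
        have h1 := hpos' x h hx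
        rw [hFp x h]
        have e1 : x + -(x + f x) = -(f x) := by ring
        rw [e1, hFn _ h1, hFn _ (by linarith : 0 ≤ x + f x), heq x]
        ring
      · rw [abs_of_nonpos h] at hx
        obtain ⟨u, rfl⟩ : ∃ u, x = -u := ⟨-x, by ring⟩
        rw [neg_neg] at hx
        have hu : 0 ≤ u := by linarith
        have h1 := hpos' u hu hx
        rw [hFn u hu]
        have e1 : -u + (u + f u) = f u := by ring
        rw [e1, hFp _ h1, hFp _ (by linarith : 0 ≤ u + f u), heq u]
        ring)
    (by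
      intro x hx hxε
      rcases lt_or_gt_of_ne hx with h | h
      · rw [abs_of_neg h] at hxε
        obtain ⟨u, rfl⟩ : ∃ u, x = -u := ⟨-x, by ring⟩
        rw [neg_neg] at hxε
        have hu : 0 < u := by linarith
        have h1 := hpos u hu hxε
        rw [hFn u hu.le]
        nlinarith
      · rw [abs_of_pos h] at hxε
        have h1 := hpos x h hxε
        rw [hFp x h.le]
        nlinarith)
  set c := -(1 + a) with hc
  have hc0 : 0 < c := by linarith
  refine ⟨c, hc0, ?_⟩
  have hloc' : ∀ x, 0 ≤ x → x ≤ δ → f x = c * x := by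
    intro x hx hxδ
    have h1 := hloc x (by rwa [abs_of_nonneg hx])
    rw [hFp x hx] at h1
    rw [hc]
    linarith
  have hκ : 1 < min (1 + c) ((1 + c) / c) := by
    refine lt_min (by linarith) ?_
    rw [lt_div_iff₀ hc0]
    linarith
  have hall := ext_of_factor (P := fun R => ∀ x, 0 ≤ x → x ≤ R → f x = c * x)
    (fun R R' h hP x hx0 hx => hP x hx0 (hx.trans h)) hκ hδ hloc' (by
      intro R hR hP x hx0 hx
      set y := x / (1 + c) with hy
      have hxy : x = (1 + c) * y := by rw [hy]; field_simp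
      have hy0 : 0 ≤ y := by rw [hy]; positivity
      have hy1 : y ≤ R := by
        have h3 : (1 + c) * y ≤ (1 + c) * R := by
          rw [← hxy]
          exact hx.trans (mul_le_mul_of_nonneg_right (min_le_left _ _) hR.le)
        exact le_of_mul_le_mul_left h3 (by linarith)
      have hy2 : c * y ≤ R := by
        have h3 : (1 + c) * y ≤ (1 + c) / c * R := by
          rw [← hxy]
          exact hx.trans (mul_le_mul_of_nonneg_right (min_le_right _ _) hR.le)
        have h4 : (1 + c) / c * R = (1 + c) * (R / c) := by ring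
        rw [h4] at h3
        have h5 := le_of_mul_le_mul_left h3 (by linarith)
        rw [le_div_iff₀ hc0] at h5
        linarith
      have h3 := heq y
      rw [hP y hy0 hy1, hP (c * y) (by positivity) hy2] at h3
      have e : y + c * y = x := by rw [hxy]; ring
      rw [e] at h3
      rw [h3, hxy]
      ring)
  intro x hx
  exact hall x x hx le_rfl

/-- Mirror image of `pos_linear`. -/
theorem neg_linear (hf : Continuous f) (heq : ∀ x, f (x + f x) = f x + f (f x))
    {ε : ℝ} (hε : 0 < ε) (hneg : ∀ x, -ε < x → x < 0 → f x < 0) :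
    ∃ a : ℝ, 0 < a ∧ ∀ x, x ≤ 0 → f x = a * x := by
  obtain ⟨a, ha, h⟩ := pos_linear (mirror_cont hf) (mirror_eq heq) hε (by
    intro x hx hxε
    have := hneg (-x) (by linarith) (by linarith)
    show 0 < - f (-x)
    linarith)
  refine ⟨a, ha, ?_⟩
  intro x hx
  have h1 : - f (-(-x)) = a * (-x) := h (-x) (by linarith)
  rw [neg_neg] at h1
  linarith

/-- If `f x = a x` for `x ≥ 0` (`a ≥ 0`) then `f ≤ 0` on the negative half-line. -/
lemma nonpos_of_linear_nonneg (heq : ∀ x, f (x + f x) = f x + f (f x)) {a : ℝ} (ha : 0 ≤ a)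
    (hlin : ∀ x, 0 ≤ x → f x = a * x) : ∀ y, y ≤ 0 → f y ≤ 0 := by
  intro y hy
  by_contra hcon
  push Not at hcon
  have hy0 : y < 0 := by
    rcases hy.eq_or_lt with h | h
    · rw [h, sol_zero heq] at hcon
      exact absurd hcon (lt_irrefl _)
    · exact h
  set u := f y with hu
  have claim : ∀ n : ℕ, ∀ t, t < 0 → u ≤ f t → t + n * u < 0 := by
    intro n
    induction n with
    | zero => intro t ht _; simpa using ht
    | succ n ih =>
      intro t ht hut
      have hft : 0 < f t := by linarith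
      have h1 := heq t
      rw [hlin (f t) hft.le] at h1
      have h2 : t + f t < 0 := by
        by_contra hc
        push Not at hc
        rw [hlin _ hc] at h1
        have h3 : a * t = f t := by linarith
        have h4 : a * t ≤ 0 := mul_nonpos_of_nonneg_of_nonpos ha ht.le
        linarith
      have h3 : u ≤ f (t + f t) := by
        rw [h1]
        have : 0 ≤ a * f t := by positivity
        linarith
      have h4 := ih (t + f t) h2 h3
      push_cast
      linarith
  obtain ⟨n, hn⟩ := exists_nat_gt (-y / u)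
  rw [div_lt_iff₀ hcon] at hn
  have := claim n y hy0 le_rfl
  linarith

/-- A continuous function which is small along arbitrarily fine progressions vanishes. -/
lemma dense_progression {h : ℝ → ℝ} (hh : Continuous h) {y : ℝ}
    (H : ∀ δ > 0, ∃ u, 0 < u ∧ u < δ ∧ ∃ x ≤ y, ∀ k : ℕ, |h (x + k * u)| ≤ δ) : h y = 0 := by
  by_contra hne
  have hpos : 0 < |h y| := abs_pos.mpr hne
  obtain ⟨d, hd, hd'⟩ := Metric.continuous_iff.mp hh y (|h y| / 2) (by positivity)
  obtain ⟨u, hu, huδ, x, hxy, hk⟩ := H (min d (|h y| / 2)) (lt_min hd (by positivity))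
  set k := ⌊(y - x) / u⌋₊ with hkdef
  have h0 : 0 ≤ (y - x) / u := div_nonneg (by linarith) hu.le
  have h1 : (k : ℝ) ≤ (y - x) / u := Nat.floor_le h0
  have h2 : (y - x) / u < k + 1 := Nat.lt_floor_add_one _
  rw [le_div_iff₀ hu] at h1
  rw [div_lt_iff₀ hu] at h2
  have h3 : dist (x + k * u) y < d := by
    rw [Real.dist_eq, abs_lt]
    have := min_le_left d (|h y| / 2)
    constructor <;> linarith
  have h4 := hd' _ h3
  rw [Real.dist_eq] at h4
  have h5 := (hk k).trans (min_le_right _ _)
  have h6 : |h y| ≤ |h (x + k * u)| + |h (x + k * u) - h y| := by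
    have := abs_sub_abs_le_abs_sub (h y) (h (x + k * u))
    rw [abs_sub_comm (h (x + k * u)) (h y)]
    linarith
  linarith

/-- Zeros of `f` accumulating at `0+`. -/
lemma zeros_right (hf : Continuous f) (heq : ∀ x, f (x + f x) = f x + f (f x))
    (hZ : ∀ δ > 0, ∃ u, 0 < u ∧ u < δ ∧ f u = 0) {x0 : ℝ} (hx0 : 0 < f x0) :
    ∀ y, 0 ≤ y → x0 ≤ y → f y = 0 := by
  intro y hy hxy
  apply dense_progression hf
  intro δ hδ
  obtain ⟨u, hu, huδ, hfu⟩ := hZ (min δ (f x0)) (lt_min hδ hx0)
  have hu1 : u < δ := huδ.trans_le (min_le_left _ _)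
  have hu2 : u < f x0 := huδ.trans_le (min_le_right _ _)
  obtain ⟨x, hx, hfx⟩ := ivt0 hf (sol_zero heq) x0 u (by
    rw [Set.uIcc_of_le hx0.le]; exact ⟨hu.le, hu2.le⟩)
  refine ⟨u, hu, hu1, x, ?_, ?_⟩
  · rw [Set.mem_uIcc] at hx
    rcases hx with h | h <;> linarith
  · have claim : ∀ k : ℕ, f (x + k * u) = u := by
      intro k
      induction k with
      | zero => simpa using hfx
      | succ k ih =>
        have h := heq (x + k * u)
        rw [ih, hfu] at h
        push_cast
        have e : x + (k + 1) * u = x + k * u + u := by ring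
        rw [e, h]
        ring
    intro k
    rw [claim k, abs_of_pos hu]
    exact hu1.le

/-- Mirror image of `zeros_right`. -/
lemma zeros_left (hf : Continuous f) (heq : ∀ x, f (x + f x) = f x + f (f x))
    (hZ : ∀ δ > 0, ∃ u, -δ < u ∧ u < 0 ∧ f u = 0) {x0 : ℝ} (hx0 : f x0 < 0) :
    ∀ y, y ≤ 0 → y ≤ x0 → f y = 0 := by
  intro y hy hxy
  have h := zeros_right (mirror_cont hf) (mirror_eq heq)
    (by
      intro δ hδ
      obtain ⟨u, h1, h2, h3⟩ := hZ δ hδ
      exact ⟨-u, by linarith, by linarith, by simp [h3]⟩) (x0 := -x0)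
    (by show 0 < - f (- -x0); rw [neg_neg]; linarith) (-y) (by linarith) (by linarith)
  have h1 : - f (- -y) = 0 := h
  rw [neg_neg] at h1
  linarith

lemma fixneg_symm (heq : ∀ x, f (x + f x) = f x + f (f x)) {u : ℝ} (hu : u + f u = 0) :
    -u + f (-u) = 0 := by
  have h := heq u
  have e : f u = -u := by linarith
  rw [hu, sol_zero heq, e] at h
  linarith

/-- Zeros of `x + f x` accumulating at `0`. -/
lemma fixneg_right (hf : Continuous f) (heq : ∀ x, f (x + f x) = f x + f (f x))
    (hG : ∀ δ > 0, ∃ u, 0 < u ∧ u < δ ∧ u + f u = 0) {x0 : ℝ} (hx0 : x0 + f x0 < 0) :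
    ∀ y, 0 ≤ y → x0 ≤ y → y + f y = 0 := by
  intro y hy hxy
  have hg : Continuous fun x => x + f x := continuous_id.add hf
  apply dense_progression (h := fun x => x + f x) hg
  intro δ hδ
  obtain ⟨u, hu, huδ, hfu⟩ := hG (min (δ / 2) (-(x0 + f x0))) (lt_min (by positivity) (by linarith))
  have hu1 : u < δ / 2 := huδ.trans_le (min_le_left _ _)
  have hu2 : u < -(x0 + f x0) := huδ.trans_le (min_le_right _ _)
  have hfu' := fixneg_symm heq hfu
  obtain ⟨x, hx, hfx⟩ := ivt0 hg (by simp [sol_zero heq]) x0 (-u) (by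
    rw [Set.uIcc_of_ge hx0.le]; exact ⟨by linarith, by linarith⟩)
  refine ⟨2 * u, by linarith, by linarith, x, ?_, ?_⟩
  · rw [Set.mem_uIcc] at hx
    rcases hx with h | h <;> linarith
  · have claim : ∀ k : ℕ, (x + k * (2 * u)) + f (x + k * (2 * u)) = -u := by
      intro k
      induction k with
      | zero => simpa using hfx
      | succ k ih =>
        set t := x + k * (2 * u) with ht
        have e : x + ((k + 1 : ℕ) : ℝ) * (2 * u) = t + 2 * u := by
          rw [ht]; push_cast; ring
        rw [e]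
        have h1 := heq t
        rw [ih] at h1
        have h2 : f (-u) = u := by linarith
        rw [h2] at h1
        have h3 : f (f t) = t + 2 * u := by linarith
        have h4 := heq (f t)
        rw [h3] at h4
        have h5 : f t + (t + 2 * u) = u := by linarith
        rw [h5] at h4
        linarith
    intro k
    show |(x + k * (2 * u)) + f (x + k * (2 * u))| ≤ δ
    rw [claim k, abs_neg, abs_of_pos hu]
    linarith

/-- If zeros of `x + f x` accumulate at `0+` then `f x = -x` for all `x`. -/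
theorem fixneg_all (hf : Continuous f) (heq : ∀ x, f (x + f x) = f x + f (f x))
    (hG : ∀ δ > 0, ∃ u, 0 < u ∧ u < δ ∧ u + f u = 0) : ∀ x, x + f x = 0 := by
  intro x0
  by_contra hne
  rcases lt_or_gt_of_ne hne with h | h
  · have h1 := fixneg_right hf heq hG h |x0| (abs_nonneg _) (le_abs_self _)
    rcases abs_cases x0 with ⟨h2, -⟩ | ⟨h2, -⟩
    · rw [h2] at h1
      exact hne h1
    · rw [h2] at h1
      have := fixneg_symm heq h1
      rw [neg_neg] at this
      exact hne this
  · have h1 := fixneg_right (mirror_cont hf) (mirror_eq heq) (by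
      intro δ hδ
      obtain ⟨u, hu, hu1, hu2⟩ := hG δ hδ
      refine ⟨u, hu, hu1, ?_⟩
      have := fixneg_symm heq hu2
      show u + - f (-u) = 0
      linarith) (x0 := -x0) (by
        show -x0 + - f (- -x0) < 0
        rw [neg_neg]
        linarith) |x0| (abs_nonneg _) (neg_le_abs _)
    have h2 : |x0| + - f (-|x0|) = 0 := h1
    have h3 : -|x0| + f (-|x0|) = 0 := by linarith
    rcases abs_cases x0 with ⟨h4, -⟩ | ⟨h4, -⟩
    · rw [h4] at h3
      have := fixneg_symm heq h3
      rw [neg_neg] at this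
      exact hne this
    · rw [h4, neg_neg] at h3
      exact hne h3

/-- The statement `f` is a nonnegative multiple of `x` on each half-line. -/
def TwoSided (f : ℝ → ℝ) : Prop :=
  ∃ a b : ℝ, 0 ≤ a ∧ 0 ≤ b ∧ (∀ x, 0 ≤ x → f x = a * x) ∧ (∀ x, x ≤ 0 → f x = b * x)

lemma twoSided_of_right (hf : Continuous f) (heq : ∀ x, f (x + f x) = f x + f (f x))
    {a : ℝ} (ha : 0 ≤ a) (hlin : ∀ x, 0 ≤ x → f x = a * x) : TwoSided f := by
  have hnp := nonpos_of_linear_nonneg heq ha hlin
  by_cases hP : ∃ ε > 0, ∀ x, -ε < x → x < 0 → f x < 0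
  · obtain ⟨ε, hε, h⟩ := hP
    obtain ⟨b, hb, hb'⟩ := neg_linear hf heq hε h
    exact ⟨a, b, ha, hb.le, hlin, hb'⟩
  · push Not at hP
    refine ⟨a, 0, ha, le_rfl, hlin, ?_⟩
    intro x hx
    rw [zero_mul]
    by_contra hne
    have hlt : f x < 0 := lt_of_le_of_ne (hnp x hx) hne
    have := zeros_left hf heq (by
      intro δ hδ
      obtain ⟨u, h1, h2, h3⟩ := hP δ hδ
      exact ⟨u, h1, h2, le_antisymm (hnp u h2.le) h3⟩) hlt x hx le_rfl
    exact hne this

lemma twoSided_of_mirror (h : TwoSided (fun t => - f (-t))) : TwoSided f := by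
  obtain ⟨a, b, ha, hb, h1, h2⟩ := h
  refine ⟨b, a, hb, ha, ?_, ?_⟩
  · intro x hx
    have := h2 (-x) (by linarith)
    simp only [neg_neg] at this
    linarith
  · intro x hx
    have := h1 (-x) (by linarith)
    simp only [neg_neg] at this
    linarith

lemma twoSided_of_left (hf : Continuous f) (heq : ∀ x, f (x + f x) = f x + f (f x))
    {b : ℝ} (hb : 0 ≤ b) (hlin : ∀ x, x ≤ 0 → f x = b * x) : TwoSided f := by
  apply twoSided_of_mirror
  apply twoSided_of_right (mirror_cont hf) (mirror_eq heq) hb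
  intro x hx
  have := hlin (-x) (by linarith)
  show - f (-x) = b * x
  rw [this]
  ring

/-- Zeros accumulating at `0+` force the first alternative. -/
lemma twoSided_of_zeros_right (hf : Continuous f)
    (heq : ∀ x, f (x + f x) = f x + f (f x))
    (hZ : ∀ δ > 0, ∃ u, 0 < u ∧ u < δ ∧ f u = 0) : TwoSided f := by
  by_cases h : ∃ x0, x0 ≤ 0 ∧ 0 < f x0
  · obtain ⟨x0, hx0, hfx0⟩ := h
    exact twoSided_of_right hf heq le_rfl (fun x hx => by
      rw [zero_mul]
      exact zeros_right hf heq hZ hfx0 x hx (hx0.trans hx))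
  · push Not at h
    by_cases hP : ∃ ε > 0, ∀ x, -ε < x → x < 0 → f x < 0
    · obtain ⟨ε, hε, h'⟩ := hP
      obtain ⟨b, hb, hb'⟩ := neg_linear hf heq hε h'
      exact twoSided_of_left hf heq hb.le hb'
    · push Not at hP
      refine twoSided_of_left hf heq (le_refl (0:ℝ)) ?_
      intro x hx
      rw [zero_mul]
      by_contra hne
      have hlt : f x < 0 := lt_of_le_of_ne (h x hx) hne
      have := zeros_left hf heq (by
        intro δ hδ
        obtain ⟨u, h1, h2, h3⟩ := hP δ hδ
        exact ⟨u, h1, h2, le_antisymm (h u h2.le) h3⟩) hlt x hx le_rfl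
      exact hne this

/-- Constant sign on an interval without zeros. -/
lemma sign_const {h : ℝ → ℝ} (hh : Continuous h) {p q : ℝ}
    (hne : ∀ x, p < x → x < q → h x ≠ 0) :
    (∀ x, p < x → x < q → 0 < h x) ∨ (∀ x, p < x → x < q → h x < 0) := by
  by_cases hex : ∃ x, p < x ∧ x < q ∧ 0 < h x
  · left
    obtain ⟨x1, h1, h2, h3⟩ := hex
    intro x hx hxq
    by_contra hcon
    push Not at hcon
    have hivt := intermediate_value_uIcc (a := x) (b := x1) (f := h) hh.continuousOn
    have h0 : (0:ℝ) ∈ Set.uIcc (h x) (h x1) := by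
      rw [Set.uIcc_of_le (hcon.trans h3.le)]
      exact ⟨hcon, h3.le⟩
    obtain ⟨w, hw, hw0⟩ := hivt h0
    rw [Set.mem_uIcc] at hw
    refine hne w ?_ ?_ hw0
    · rcases hw with h | h <;> linarith
    · rcases hw with h | h <;> linarith
  · right
    push Not at hex
    intro x hx hxq
    exact lt_of_le_of_ne (hex x hx hxq) (hne x hx hxq)

theorem classification (hf : Continuous f) (heq : ∀ x, f (x + f x) = f x + f (f x)) :
    TwoSided f ∨ ∃ a : ℝ, a < 0 ∧ ∀ x, f x = a * x := by
  have f0 := sol_zero heq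
  by_cases hZ : ∀ δ > 0, ∃ u, 0 < u ∧ u < δ ∧ f u = 0
  · exact Or.inl (twoSided_of_zeros_right hf heq hZ)
  by_cases hZ' : ∀ δ > 0, ∃ u, -δ < u ∧ u < 0 ∧ f u = 0
  · left
    apply twoSided_of_mirror
    apply twoSided_of_zeros_right (mirror_cont hf) (mirror_eq heq)
    intro δ hδ
    obtain ⟨u, h1, h2, h3⟩ := hZ' δ hδ
    exact ⟨-u, by linarith, by linarith, by simp [h3]⟩
  push Not at hZ hZ'
  obtain ⟨δ1, hδ1, hne1⟩ := hZ
  obtain ⟨δ2, hδ2, hne2⟩ := hZ'
  rcases sign_const hf (p := 0) (q := δ1) hne1 with hpos | hneg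
  · obtain ⟨a, ha, h⟩ := pos_linear hf heq hδ1 hpos
    exact Or.inl (twoSided_of_right hf heq ha.le h)
  rcases sign_const hf (p := -δ2) (q := 0) hne2 with hpos' | hneg'
  swap
  · obtain ⟨b, hb, h⟩ := neg_linear hf heq hδ2 hneg'
    exact Or.inl (twoSided_of_left hf heq hb.le h)
  right
  -- now `f < 0` on `(0, δ1)` and `f > 0` on `(-δ2, 0)`
  by_cases hG : ∀ δ > 0, ∃ u, 0 < u ∧ u < δ ∧ u + f u = 0
  · exact ⟨-1, by norm_num, fun x => by
      have := fixneg_all hf heq hG x
      linarith⟩
  push Not at hG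
  obtain ⟨δ3, hδ3, hne3⟩ := hG
  set δ := min (min δ1 δ2) δ3 with hδ
  have hδpos : 0 < δ := lt_min (lt_min hδ1 hδ2) hδ3
  have hδ_1 : δ ≤ δ1 := (min_le_left _ _).trans (min_le_left _ _)
  have hδ_2 : δ ≤ δ2 := (min_le_left _ _).trans (min_le_right _ _)
  have hδ_3 : δ ≤ δ3 := min_le_right _ _
  have hfneg : ∀ x, 0 < x → x < δ → f x < 0 := fun x h1 h2 => hneg x h1 (by linarith)
  have hfpos : ∀ x, -δ < x → x < 0 → 0 < f x := fun x h1 h2 => hpos' x (by linarith) h2
  have hsf : ∀ x, x ≠ 0 → |x| < δ → x * f x < 0 := by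
    intro x hx hxδ
    rcases lt_or_gt_of_ne hx with h | h
    · rw [abs_of_neg h] at hxδ
      exact mul_neg_of_neg_of_pos h (hfpos x (by linarith) h)
    · rw [abs_of_pos h] at hxδ
      exact mul_neg_of_pos_of_neg h (hfneg x h hxδ)
  have hgc : Continuous fun x => x + f x := continuous_id.add hf
  have hgne : ∀ x, 0 < x → x < δ → x + f x ≠ 0 := fun x h1 h2 => hne3 x h1 (by linarith)
  have hgne' : ∀ x, -δ < x → x < 0 → x + f x ≠ 0 := by
    intro x h1 h2 h3
    exact hgne (-x) (by linarith) (by linarith) (fixneg_symm heq h3)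
  -- a small radius on which `f` and `x + f x` stay in `(-δ, δ)`
  obtain ⟨r, hr, hrδ, hrf⟩ : ∃ r, 0 < r ∧ r < δ ∧ ∀ x, |x| ≤ r → |f x| < δ ∧ |x + f x| < δ := by
    have hopen : IsOpen {x : ℝ | |f x| < δ ∧ |x + f x| < δ} :=
      (isOpen_lt hf.abs continuous_const).inter (isOpen_lt hgc.abs continuous_const)
    have h0 : (0:ℝ) ∈ {x : ℝ | |f x| < δ ∧ |x + f x| < δ} := by
      simp only [Set.mem_ofPred_eq, f0, add_zero, abs_zero]
      exact ⟨hδpos, hδpos⟩
    obtain ⟨s, hs, hball⟩ := Metric.isOpen_iff.mp hopen 0 h0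
    refine ⟨min s δ / 2, by positivity, ?_, ?_⟩
    · have := min_le_right s δ
      linarith
    · intro x hx
      apply hball
      rw [Metric.mem_ball, Real.dist_eq, sub_zero]
      have := min_le_left s δ
      have h2 : 0 < min s δ := lt_min hs hδpos
      linarith
  have hr' := hrf r (by rw [abs_of_pos hr])
  have hfr : f r < 0 := hfneg r hr hrδ
  rcases sign_const hgc (p := 0) (q := δ) hgne with hgp | hgn
  · -- regime I
    rcases sign_const hgc (p := -δ) (q := 0) hgne' with hgp' | hgn'
    · exfalso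
      have h1 : 0 < r + f r := hgp r hr hrδ
      have h2 : f (r + f r) < 0 := hfneg _ h1 (lt_of_abs_lt hr'.2)
      have h3 : 0 < f r + f (f r) := hgp' (f r) (neg_lt_of_abs_lt hr'.1) hfr
      rw [← heq r] at h3
      linarith
    · apply regimeI_linear hf heq hδpos hsf
      intro x hx hxδ
      rcases lt_or_gt_of_ne hx with h | h
      · rw [abs_of_neg h] at hxδ
        exact mul_pos_of_neg_of_neg h (hgn' x (by linarith) h)
      · rw [abs_of_pos h] at hxδ
        exact mul_pos h (hgp x h hxδ)
  · -- regime II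
    rcases sign_const hgc (p := -δ) (q := 0) hgne' with hgp' | hgn'
    · apply regimeII_linear hf heq hδpos
      intro x hx hxδ
      rcases lt_or_gt_of_ne hx with h | h
      · rw [abs_of_neg h] at hxδ
        exact mul_neg_of_neg_of_pos h (hgp' x (by linarith) h)
      · rw [abs_of_pos h] at hxδ
        exact mul_neg_of_pos_of_neg h (hgn x h hxδ)
    · exfalso
      have h1 : r + f r < 0 := hgn r hr hrδ
      have h2 : 0 < f (r + f r) := hfpos _ (neg_lt_of_abs_lt hr'.2) h1
      have h3 : f r + f (f r) < 0 := hgn' (f r) (neg_lt_of_abs_lt hr'.1) hfr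
      rw [← heq r] at h3
      linarith

lemma sol_of_twoSided (h : TwoSided f) : ∀ x, f (x + f x) = f x + f (f x) := by
  obtain ⟨a, b, ha, hb, h1, h2⟩ := h
  intro x
  rcases le_total 0 x with hx | hx
  · rw [h1 x hx, h1 (a * x) (by positivity), h1 (x + a * x) (by positivity)]
    ring
  · have h3 : b * x ≤ 0 := mul_nonpos_of_nonneg_of_nonpos hb hx
    rw [h2 x hx, h2 (b * x) h3, h2 (x + b * x) (by linarith)]
    ring

lemma continuous_of_twoSided (h : TwoSided f) : Continuous f := by
  obtain ⟨a, b, ha, hb, h1, h2⟩ := h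
  have : f = fun x => a * max x 0 + b * min x 0 := by
    funext x
    rcases le_total 0 x with hx | hx
    · rw [h1 x hx, max_eq_left hx, min_eq_right hx]; ring
    · rw [h2 x hx, max_eq_right hx, min_eq_left hx]; ring
  rw [this]
  exact (continuous_const.mul (continuous_id.max continuous_const)).add
    (continuous_const.mul (continuous_id.min continuous_const))

end H464.Forti
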