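import Mathlib

set_option autoImplicit false

namespace Pool.Agent.H464R3.IBP

open MeasureTheory Set Filter Topology

/-- Integration of a divergence: a compactly supported continuous vector field which is
differentiable off the origin and has integrable divergence has divergence of integral zero. -/
theorem integral_div_eq_zero {d : ℕ} (f : Fin d → EuclideanSpace ℝ (Fin d) → ℝ)
    (f' : Fin d → EuclideanSpace ℝ (Fin d) → (EuclideanSpace ℝ (Fin d) →L[ℝ] ℝ)) (R : ℝ)
    (hR : 0 ≤ R)
    (hc : ∀ i, Continuous (f i))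
    (hz : ∀ i x, R < ‖x‖ → f i x = 0)
    (hd : ∀ x, x ≠ 0 → ∀ i, HasFDerivAt (f i) (f' i x) x)
    (hi : Integrable (fun x => ∑ i, f' i x (EuclideanSpace.single i 1))) :
    ∫ x, ∑ i, f' i x (EuclideanSpace.single i 1) = 0 := by
  rcases d with _ | n
  · simp
  set e : (Fin (n+1) → ℝ) ≃L[ℝ] EuclideanSpace ℝ (Fin (n+1)) :=
    (PiLp.continuousLinearEquiv 2 ℝ (fun _ : Fin (n+1) => ℝ)).symm with he
  have he_apply : ∀ y, e y = WithLp.toLp 2 y := fun y => rfl
  have hpres : MeasurePreserving (fun y : Fin (n+1) → ℝ => e y) volume volume :=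
    PiLp.volume_preserving_toLp (Fin (n+1))
  have hemb : MeasurableEmbedding (fun y : Fin (n+1) → ℝ => e y) :=
    e.toHomeomorph.measurableEmbedding
  set D : EuclideanSpace ℝ (Fin (n+1)) → ℝ :=
    fun x => ∑ i, f' i x (EuclideanSpace.single i 1) with hD
  have hnorm : ∀ (y : Fin (n+1) → ℝ) (i : Fin (n+1)), |y i| ≤ ‖e y‖ := by
    intro y i
    have := PiLp.norm_apply_le (e y) i
    simpa [he_apply] using this
  have hDz : ∀ x, R < ‖x‖ → D x = 0 := by
    intro x hx
    have hx0 : x ≠ 0 := by
      rintro rfl
      simp at hx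
      linarith
    have hzero : ∀ i, f' i x = 0 := by
      intro i
      have h1 : HasFDerivAt (f i) (0 : EuclideanSpace ℝ (Fin (n+1)) →L[ℝ] ℝ) x := by
        have hev : f i =ᶠ[𝓝 x] fun _ => (0 : ℝ) := by
          have : {z : EuclideanSpace ℝ (Fin (n+1)) | R < ‖z‖} ∈ 𝓝 x :=
            (isOpen_lt continuous_const continuous_norm).mem_nhds hx
          filter_upwards [this] with z hz'
          exact hz i z hz'
        exact (hasFDerivAt_const (0 : ℝ) x).congr_of_eventuallyEq hev
      exact (hd x hx0 i).unique h1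
    simp [hD, hzero]
  have h1 : ∫ x, D x = ∫ y : Fin (n+1) → ℝ, D (e y) :=
    (hpres.integral_comp hemb D).symm
  rw [h1]
  set a : Fin (n+1) → ℝ := fun _ => -(R+1) with ha
  set b : Fin (n+1) → ℝ := fun _ => (R+1) with hb
  have hab : a ≤ b := by
    intro i
    simp only [ha, hb]
    linarith
  have hout : ∀ y, y ∉ Set.Icc a b → D (e y) = 0 := by
    intro y hy
    apply hDz
    by_contra hcon
    push Not at hcon
    apply hy
    constructor
    · intro i
      have := abs_le.1 ((hnorm y i).trans hcon)
      simp only [ha]; linarith [this.1]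
    · intro i
      have := abs_le.1 ((hnorm y i).trans hcon)
      simp only [hb]; linarith [this.2]
  rw [← setIntegral_eq_integral_of_forall_compl_eq_zero hout]
  have hint : Integrable (fun y : Fin (n+1) → ℝ => D (e y)) :=
    (hpres.integrable_comp_emb hemb).2 hi
  have key := integral_divergence_of_hasFDerivAt_off_countable' a b hab
    (fun i y => f i (e y))
    (fun i y => (f' i (e y)).comp (e : (Fin (n+1) → ℝ) →L[ℝ] EuclideanSpace ℝ (Fin (n+1)))) {0}
    (Set.countable_singleton _)
    (fun i => ((hc i).comp e.continuous).continuousOn)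
    (by
      rintro y ⟨-, hy⟩ i
      have hy0 : e y ≠ 0 := by
        intro h
        apply hy
        simp only [Set.mem_singleton_iff]
        exact (map_eq_zero_iff e e.injective).1 h
      exact (hd (e y) hy0 i).comp y e.hasFDerivAt)
    (by
      have : (fun y : Fin (n+1) → ℝ => D (e y)) = fun x => ∑ i,
          ((f' i (e x)).comp (e : (Fin (n+1) → ℝ) →L[ℝ] EuclideanSpace ℝ (Fin (n+1))))
            (Pi.single i 1) := by
        funext y
        simp only [hD, ContinuousLinearMap.comp_apply, ContinuousLinearEquiv.coe_coe]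
        rfl
      rw [← this]
      exact hint.integrableOn)
  have hlhs : (∫ x in Set.Icc a b, D (e x)) = ∫ x in Set.Icc a b, ∑ i,
      ((f' i (e x)).comp (e : (Fin (n+1) → ℝ) →L[ℝ] EuclideanSpace ℝ (Fin (n+1))))
            (Pi.single i 1) := rfl
  rw [hlhs, key]
  apply Finset.sum_eq_zero
  intro i _
  have hf1 : ∀ x : Fin n → ℝ, f i (e (i.insertNth (b i) x)) = 0 := by
    intro x
    apply hz
    have := hnorm (i.insertNth (b i) x) i
    simp only [Fin.insertNth_apply_same, hb] at this
    have h2 := le_abs_self (R+1)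
    simp only [hb]
    linarith
  have hf2 : ∀ x : Fin n → ℝ, f i (e (i.insertNth (a i) x)) = 0 := by
    intro x
    apply hz
    have := hnorm (i.insertNth (a i) x) i
    simp only [Fin.insertNth_apply_same, ha] at this
    have h2 := neg_le_abs (-(R+1))
    simp only [ha]
    linarith
  simp only [hf1, hf2]
  simp

end Pool.Agent.H464R3.IBP
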