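import Pool.Agent.H464R3.IBP

set_option autoImplicit false

namespace Pool.Agent.H464R3.IBP

open MeasureTheory Set Filter Topology
open scoped ContDiff

theorem weak_div {d : ℕ} (hd : 0 < d) (F : Fin d → EuclideanSpace ℝ (Fin d) → ℝ)
    (F' : Fin d → EuclideanSpace ℝ (Fin d) → (EuclideanSpace ℝ (Fin d) →L[ℝ] ℝ))
    (g : EuclideanSpace ℝ (Fin d) → ℝ)
    (hF : ∀ i, Continuous (F i)) (hg : Continuous g)
    (hF' : ∀ x, x ≠ 0 → ∀ i, HasFDerivAt (F i) (F' i x) x)
    (hdiv : ∀ x, x ≠ 0 → ∑ i, F' i x (EuclideanSpace.single i 1) = g x)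
    (φ : EuclideanSpace ℝ (Fin d) → ℝ) (hφ : ContDiff ℝ ∞ φ) (hs : HasCompactSupport φ) :
    Integrable (fun x => ∑ i, F i x * fderiv ℝ φ x (EuclideanSpace.single i 1)) ∧
    ∫ x, ∑ i, F i x * fderiv ℝ φ x (EuclideanSpace.single i 1) = - ∫ x, g x * φ x := by
  haveI : Nonempty (Fin d) := ⟨⟨0, hd⟩⟩
  have hφc : Continuous φ := hφ.continuous
  have hφ1 : ContDiff ℝ 1 φ := hφ.of_le (by exact_mod_cast le_top)
  have hφd : Differentiable ℝ φ := hφ1.differentiable (by norm_num)
  have hφ' : Continuous (fderiv ℝ φ) := hφ1.continuous_fderiv (by norm_num)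
  obtain ⟨R, hR⟩ : ∃ R : ℝ, 0 ≤ R ∧ ∀ x, R < ‖x‖ → φ x = 0 := by
    obtain ⟨R, hR⟩ := hs.isCompact.isBounded.subset_closedBall 0
    refine ⟨max R 0, le_max_right _ _, fun x hx => ?_⟩
    by_contra hne
    have h1 : x ∈ tsupport φ := subset_tsupport _ hne
    have h2 := hR h1
    rw [mem_closedBall_zero_iff] at h2
    linarith [le_max_left R 0]
  obtain ⟨hR0, hR⟩ := hR
  have hi1 : Integrable (fun x => ∑ i, F i x * fderiv ℝ φ x (EuclideanSpace.single i 1)) := by
    refine integrable_finsetSum _ fun i _ => ?_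
    have hc : Continuous (fun x => F i x * fderiv ℝ φ x (EuclideanSpace.single i 1)) :=
      (hF i).mul (hφ'.clm_apply continuous_const)
    refine hc.integrable_of_hasCompactSupport ?_
    have : HasCompactSupport (fun x => fderiv ℝ φ x (EuclideanSpace.single i 1)) :=
      (hs.fderiv (𝕜 := ℝ)).comp_left (g := fun L : EuclideanSpace ℝ (Fin d) →L[ℝ] ℝ =>
        L (EuclideanSpace.single i 1)) (by simp)
    exact this.mul_left
  have hi2 : Integrable (fun x => g x * φ x) := by
    have hc : Continuous (fun x => g x * φ x) := hg.mul hφc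
    exact hc.integrable_of_hasCompactSupport hs.mul_left
  set f' : Fin d → EuclideanSpace ℝ (Fin d) → (EuclideanSpace ℝ (Fin d) →L[ℝ] ℝ) :=
    fun i x => F i x • fderiv ℝ φ x + φ x • F' i x with hf'
  have hae : (fun x => ∑ i, f' i x (EuclideanSpace.single i 1)) =ᵐ[volume]
      fun x => (∑ i, F i x * fderiv ℝ φ x (EuclideanSpace.single i 1)) + g x * φ x := by
    have h0 : ({0}ᶜ : Set (EuclideanSpace ℝ (Fin d))) ∈ ae volume :=
      compl_mem_ae_iff.2 (measure_singleton 0)
    filter_upwards [h0] with x hx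
    have hx' : x ≠ 0 := by simpa using hx
    simp only [hf', ContinuousLinearMap.add_apply, ContinuousLinearMap.smul_apply, smul_eq_mul,
      Finset.sum_add_distrib, ← Finset.mul_sum]
    rw [hdiv x hx']
    ring
  have hint : Integrable (fun x => ∑ i, f' i x (EuclideanSpace.single i 1)) :=
    (hi1.add hi2).congr hae.symm
  have key := integral_div_eq_zero (fun i x => F i x * φ x) f' R hR0
    (fun i => (hF i).mul hφc)
    (fun i x hx => by simp [hR x hx])
    (fun x hx i => (hF' x hx i).mul (hφd x).hasFDerivAt)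
    hint
  rw [integral_congr_ae hae, integral_add hi1 hi2] at key
  exact ⟨hi1, by linarith⟩

end Pool.Agent.H464R3.IBP
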